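import Mathlib

set_option autoImplicit false
open Filter Topology
open scoped ENNReal

namespace Pool.Agent.H69.FJ

/-- The Figiel-Johnson norming set (nonnegative part). -/
inductive WW : (ℕ → ℝ≥0∞) → Prop
  | zero : WW (fun _ => 0)
  | single (n : ℕ) : WW (fun m => if m = n then 1 else 0)
  | comb (k : ℕ) (f : Fin k → ℕ → ℝ≥0∞) (hf : ∀ i, WW (f i))
      (hk : ∀ i n, f i n ≠ 0 → k ≤ n)
      (hord : ∀ i j, i < j → ∀ n m, f i n ≠ 0 → f j m ≠ 0 → n < m) :
      WW (fun n => 2⁻¹ * ∑ i, f i n)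

/-- the pairing of nonnegative sequences -/
noncomputable def pair (f z : ℕ → ℝ≥0∞) : ℝ≥0∞ := ∑' n, f n * z n

/-- positive part of the unit ball of the Figiel-Johnson norm -/
def B : Set (ℕ → ℝ≥0∞) := {z | ∀ f, WW f → pair f z ≤ 1}

/-- the dual norm -/
noncomputable def tn (t : ℕ → ℝ≥0∞) : ℝ≥0∞ := ⨆ z ∈ B, pair z t

lemma pair_mono {f f' z z' : ℕ → ℝ≥0∞} (hf : ∀ n, f n ≤ f' n) (hz : ∀ n, z n ≤ z' n) :
    pair f z ≤ pair f' z' :=
  ENNReal.tsum_le_tsum (fun n => mul_le_mul' (hf n) (hz n))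

lemma pair_ind (S : Set ℕ) (f z : ℕ → ℝ≥0∞) : pair (S.indicator f) z = pair f (S.indicator z) := by
  unfold pair
  congr 1
  funext n
  by_cases h : n ∈ S <;> simp [h]

lemma pair_sum_right {ι : Type*} (s : Finset ι) (f : ℕ → ℝ≥0∞) (z : ι → ℕ → ℝ≥0∞) :
    pair f (fun n => ∑ i ∈ s, z i n) = ∑ i ∈ s, pair f (z i) := by
  unfold pair
  rw [← Summable.tsum_finsetSum (fun _ _ => ENNReal.summable)]
  congr 1
  funext n
  rw [Finset.mul_sum]

lemma pair_sum_left {ι : Type*} (s : Finset ι) (f : ι → ℕ → ℝ≥0∞) (z : ℕ → ℝ≥0∞) :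
    pair (fun n => ∑ i ∈ s, f i n) z = ∑ i ∈ s, pair (f i) z := by
  unfold pair
  rw [← Summable.tsum_finsetSum (fun _ _ => ENNReal.summable)]
  congr 1
  funext n
  rw [Finset.sum_mul]

lemma pair_const_left (c : ℝ≥0∞) (f z : ℕ → ℝ≥0∞) : pair (fun n => c * f n) z = c * pair f z := by
  unfold pair
  rw [← ENNReal.tsum_mul_left]
  congr 1; funext n; ring

lemma pair_const_right (c : ℝ≥0∞) (f z : ℕ → ℝ≥0∞) : pair f (fun n => c * z n) = c * pair f z := by
  unfold pair
  rw [← ENNReal.tsum_mul_left]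
  congr 1; funext n; ring

lemma pair_add_left (f g z : ℕ → ℝ≥0∞) : pair (fun n => f n + g n) z = pair f z + pair g z := by
  unfold pair
  rw [← ENNReal.tsum_add]
  congr 1; funext n; ring

lemma pair_add_right (f z w : ℕ → ℝ≥0∞) : pair f (fun n => z n + w n) = pair f z + pair f w := by
  unfold pair
  rw [← ENNReal.tsum_add]
  congr 1; funext n; ring

lemma pair_single_left (n : ℕ) (z : ℕ → ℝ≥0∞) : pair (fun m => if m = n then 1 else 0) z = z n := by
  unfold pair
  rw [tsum_eq_single n]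
  · simp
  · intro m hm; simp [hm]

lemma pair_comm (f z : ℕ → ℝ≥0∞) : pair f z = pair z f := by
  unfold pair; congr 1; funext n; ring

lemma WW_ind {f : ℕ → ℝ≥0∞} (hf : WW f) (S : Set ℕ) : WW (S.indicator f) := by
  induction hf with
  | zero => convert WW.zero using 1; funext n; simp
  | single n =>
    by_cases h : n ∈ S
    · convert WW.single n using 1
      funext m
      by_cases hm : m = n
      · subst hm; simp [h]
      · by_cases hS : m ∈ S <;> simp [hm, hS]
    · convert WW.zero using 1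
      funext m
      by_cases hm : m = n
      · subst hm; simp [h]
      · by_cases hS : m ∈ S <;> simp [hm, hS]
  | comb k f hf hk hord ih =>
    have h1 : S.indicator (fun n => 2⁻¹ * ∑ i, f i n)
        = fun n => 2⁻¹ * ∑ i, (S.indicator (f i)) n := by
      funext n
      by_cases hS : n ∈ S <;> simp [hS]
    rw [h1]
    have h2 : ∀ i n, S.indicator (f i) n ≠ 0 → f i n ≠ 0 := by
      intro i n h
      by_cases hS : n ∈ S
      · simpa [hS] using h
      · simp [hS] at h
    exact WW.comb k _ ih (fun i n h => hk i n (h2 i n h))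
      (fun i j hij n m hn hm => hord i j hij n m (h2 _ _ hn) (h2 _ _ hm))

lemma WW_le_one {f : ℕ → ℝ≥0∞} (hf : WW f) (n : ℕ) : f n ≤ 1 := by
  induction hf with
  | zero => simp
  | single m => dsimp only; split_ifs <;> simp
  | comb k f hf hk hord ih =>
    have h1 : ∑ i, f i n ≤ 1 := by
      by_cases h : ∃ i, f i n ≠ 0
      · obtain ⟨i, hi⟩ := h
        rw [Finset.sum_eq_single i]
        · exact ih i
        · intro j _ hj
          by_contra hne
          rcases lt_or_gt_of_ne hj with h | h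
          · exact lt_irrefl _ (hord j i h n n hne hi)
          · exact lt_irrefl _ (hord i j h n n hi hne)
        · simp
      · push Not at h
        simp [h]
    calc 2⁻¹ * ∑ i, f i n ≤ 1 * 1 := by
          gcongr
          exact ENNReal.inv_le_one.mpr (by norm_num)
      _ = 1 := by simp

lemma B_le_one {z : ℕ → ℝ≥0∞} (hz : z ∈ B) (n : ℕ) : z n ≤ 1 := by
  have := hz _ (WW.single n)
  rwa [pair_single_left] at this

lemma B_mono {z z' : ℕ → ℝ≥0∞} (hz : z ∈ B) (h : ∀ n, z' n ≤ z n) : z' ∈ B := fun f hf =>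
  (pair_mono (fun _ => le_rfl) h).trans (hz f hf)

lemma B_ind {z : ℕ → ℝ≥0∞} (hz : z ∈ B) (S : Set ℕ) : S.indicator z ∈ B :=
  B_mono hz (fun n => Set.indicator_le_self _ _ n)

lemma single_mem_B (n : ℕ) : (fun m => if m = n then (1 : ℝ≥0∞) else 0) ∈ B := by
  intro f hf
  rw [pair_comm, pair_single_left]
  exact WW_le_one hf n

lemma le_tn {z : ℕ → ℝ≥0∞} (hz : z ∈ B) (t : ℕ → ℝ≥0∞) : pair z t ≤ tn t :=
  le_iSup₂ (f := fun z (_ : z ∈ B) => pair z t) z hz

lemma tn_le {t : ℕ → ℝ≥0∞} {C : ℝ≥0∞} (h : ∀ z ∈ B, pair z t ≤ C) : tn t ≤ C := iSup₂_le h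

lemma tn_mono {t t' : ℕ → ℝ≥0∞} (h : ∀ n, t n ≤ t' n) : tn t ≤ tn t' :=
  tn_le (fun z hz => (pair_mono (fun _ => le_rfl) h).trans (le_tn hz t'))

lemma coord_le_tn (t : ℕ → ℝ≥0∞) (n : ℕ) : t n ≤ tn t := by
  have := le_tn (single_mem_B n) t
  rwa [pair_single_left] at this

lemma tn_add_le (t t' : ℕ → ℝ≥0∞) : tn (fun n => t n + t' n) ≤ tn t + tn t' := by
  refine tn_le (fun z hz => ?_)
  rw [pair_add_right]
  exact add_le_add (le_tn hz t) (le_tn hz t')

lemma tn_le_tsum (t : ℕ → ℝ≥0∞) : tn t ≤ ∑' n, t n := by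
  refine tn_le (fun z hz => ?_)
  unfold pair
  refine ENNReal.tsum_le_tsum (fun n => ?_)
  calc z n * t n ≤ 1 * t n := by gcongr; exact B_le_one hz n
    _ = t n := one_mul _

/-- an almost optimal element of the norming set -/
lemma exists_near {z : ℕ → ℝ≥0∞} (hz : z ∈ B) {ε : ℝ≥0∞} (hε : ε ≠ 0) :
    ∃ f, WW f ∧ (⨆ f, ⨆ (_ : WW f), pair f z) ≤ pair f z + ε := by
  set l := ⨆ f, ⨆ (_ : WW f), pair f z with hl
  have hl1 : l ≤ 1 := iSup₂_le hz
  have hlt : l ≠ ⊤ := ne_top_of_le_ne_top (by simp) hl1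
  by_cases h0 : l = 0
  · exact ⟨_, WW.zero, by rw [h0]; exact zero_le⟩
  · have h1 : l - ε < l := ENNReal.sub_lt_self hlt h0 hε
    nth_rewrite 2 [hl] at h1
    rw [lt_iSup_iff] at h1
    obtain ⟨f, hf⟩ := h1
    rw [lt_iSup_iff] at hf
    obtain ⟨hf1, hf2⟩ := hf
    exact ⟨f, hf1, tsub_le_iff_right.mp hf2.le⟩

/-- the upper estimate for blocks -/
theorem tn_blocks (k : ℕ) (t : Fin k → ℕ → ℝ≥0∞) (C : ℝ≥0∞) (hC : ∀ i, tn (t i) ≤ C)
    (hk : ∀ i n, t i n ≠ 0 → k ≤ n)
    (hord : ∀ i j, i < j → ∀ n m, t i n ≠ 0 → t j m ≠ 0 → n < m) :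
    tn (fun n => ∑ i, t i n) ≤ 2 * C := by
  classical
  refine tn_le (fun z hz => ?_)
  let S : Fin k → Set ℕ := fun i => {n | t i n ≠ 0}
  let zi : Fin k → ℕ → ℝ≥0∞ := fun i => (S i).indicator z
  have hzi : ∀ i, zi i ∈ B := fun i => B_ind hz _
  let l : Fin k → ℝ≥0∞ := fun i => ⨆ f, ⨆ (_ : WW f), pair f (zi i)
  have hl1 : ∀ i, l i ≤ 1 := fun i => iSup₂_le (hzi i)
  have hsum : ∑ i, l i ≤ 2 := by
    refine ENNReal.le_of_forall_pos_le_add (fun ε hε _ => ?_)
    rcases Nat.eq_zero_or_pos k with h0 | hkpos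
    · subst h0; simp
    have hε' : (ε : ℝ≥0∞) / k ≠ 0 := by
      simp only [ne_eq, ENNReal.div_eq_zero_iff, ENNReal.coe_eq_zero, not_or]
      exact ⟨hε.ne', ENNReal.natCast_ne_top k⟩
    choose f hf1 hf2 using fun i => exists_near (hzi i) hε'
    have hW : WW (fun n => 2⁻¹ * ∑ i, ((S i).indicator (f i)) n) := by
      have h2 : ∀ i n, (S i).indicator (f i) n ≠ 0 → t i n ≠ 0 := by
        intro i n h
        by_contra hne
        have : n ∉ S i := by simpa [S] using hne
        simp [this] at h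
      exact WW.comb k _ (fun i => WW_ind (hf1 i) _) (fun i n h => hk i n (h2 i n h))
        (fun i j hij n m hn hm => hord i j hij n m (h2 _ _ hn) (h2 _ _ hm))
    have h3 := hz _ hW
    rw [pair_const_left, pair_sum_left] at h3
    have h4 : ∑ i, pair (f i) (zi i) ≤ 2 := by
      have h5 : ∀ i, pair ((S i).indicator (f i)) z = pair (f i) (zi i) := fun i => pair_ind _ _ _
      simp only [h5] at h3
      calc ∑ i, pair (f i) (zi i) = 2 * (2⁻¹ * ∑ i, pair (f i) (zi i)) := by
            rw [← mul_assoc, ENNReal.mul_inv_cancel (by norm_num) (by norm_num), one_mul]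
        _ ≤ 2 * 1 := by gcongr
        _ = 2 := mul_one _
    calc ∑ i, l i ≤ ∑ i, (pair (f i) (zi i) + (ε : ℝ≥0∞) / k) := Finset.sum_le_sum (fun i _ => hf2 i)
      _ = ∑ i, pair (f i) (zi i) + k * ((ε : ℝ≥0∞) / k) := by
          rw [Finset.sum_add_distrib]; simp
      _ ≤ 2 + ε := by
          gcongr
          rw [ENNReal.mul_div_cancel (by exact_mod_cast hkpos.ne') (by simp)]
  have hterm : ∀ i, pair z (t i) ≤ l i * C := by
    intro i
    have h1 : pair z (t i) = pair (zi i) (t i) := by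
      show pair z (t i) = pair ((S i).indicator z) (t i)
      rw [pair_ind]
      congr 1
      funext n
      by_cases h : t i n = 0
      · simp [S, h]
      · simp [S, h]
    rw [h1]
    by_cases h0 : l i = 0
    · have h2 : ∀ n, zi i n = 0 := by
        intro n
        have h3 : pair (fun m => if m = n then 1 else 0) (zi i) ≤ l i :=
          le_iSup₂ (f := fun f (_ : WW f) => pair f (zi i)) _ (WW.single n)
        rw [pair_single_left, h0] at h3
        exact le_antisymm h3 (zero_le)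
      have : pair (zi i) (t i) = 0 := by
        unfold pair
        simp [h2]
      rw [this]; exact zero_le
    · have hlt : l i ≠ ⊤ := ne_top_of_le_ne_top (by simp) (hl1 i)
      have h2 : (fun n => (l i)⁻¹ * zi i n) ∈ B := by
        intro f hf
        rw [pair_const_right]
        calc (l i)⁻¹ * pair f (zi i) ≤ (l i)⁻¹ * l i := by
              gcongr
              exact le_iSup₂ (f := fun f (_ : WW f) => pair f (zi i)) f hf
          _ = 1 := ENNReal.inv_mul_cancel h0 hlt
      have h3 := (le_tn h2 (t i)).trans (hC i)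
      rw [pair_const_left] at h3
      calc pair (zi i) (t i) = l i * ((l i)⁻¹ * pair (zi i) (t i)) := by
            rw [← mul_assoc, ENNReal.mul_inv_cancel h0 hlt, one_mul]
        _ ≤ l i * C := by gcongr
  calc pair z (fun n => ∑ i, t i n) = ∑ i, pair z (t i) := pair_sum_right _ _ _
    _ ≤ ∑ i, l i * C := Finset.sum_le_sum (fun i _ => hterm i)
    _ = (∑ i, l i) * C := by rw [Finset.sum_mul]
    _ ≤ 2 * C := by gcongr

/-- a counting lemma -/
lemma count (k r : ℕ) (a : Fin k → Fin r → ℝ≥0∞) (h1 : ∀ j i, a j i ≤ 1)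
    (h2 : ∀ i j j', j < j' → a j i ≠ 0 → a j' i ≠ 0 → ∀ i', i < i' → a j i' = 0) :
    ∑ i, ∑ j, a j i ≤ r + k := by
  classical
  let T : Finset (Fin k × Fin r) := Finset.univ.filter (fun p => a p.1 p.2 ≠ 0)
  let T1 := T.filter (fun p => ∃ i', p.2 < i' ∧ a p.1 i' ≠ 0)
  let T2 := T.filter (fun p => ¬ ∃ i', p.2 < i' ∧ a p.1 i' ≠ 0)
  have hT : T.card = T1.card + T2.card := (Finset.card_filter_add_card_filter_not _).symm
  have hT1 : T1.card ≤ r := by
    have : T1.card ≤ (Finset.univ : Finset (Fin r)).card := by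
      refine Finset.card_le_card_of_injOn (fun p => p.2) (fun _ _ => Finset.mem_coe.mpr (Finset.mem_univ _)) ?_
      rintro ⟨j, i⟩ hp ⟨j', i'⟩ hp' heq
      simp only at heq
      subst heq
      simp only [T1, T, Finset.coe_filter, Finset.mem_filter, Finset.mem_univ, true_and, Set.mem_ofPred_eq] at hp hp'
      rcases lt_trichotomy j j' with h | h | h
      · obtain ⟨i'', hlt, hne⟩ := hp.2
        exact absurd (h2 i j j' h hp.1 hp'.1 i'' hlt) hne
      · rw [h]
      · obtain ⟨i'', hlt, hne⟩ := hp'.2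
        exact absurd (h2 i j' j h hp'.1 hp.1 i'' hlt) hne
    simpa using this
  have hT2 : T2.card ≤ k := by
    have : T2.card ≤ (Finset.univ : Finset (Fin k)).card := by
      refine Finset.card_le_card_of_injOn (fun p => p.1) (fun _ _ => Finset.mem_coe.mpr (Finset.mem_univ _)) ?_
      rintro ⟨j, i⟩ hp ⟨j', i'⟩ hp' heq
      simp only at heq
      subst heq
      simp only [T2, T, Finset.coe_filter, Finset.mem_filter, Finset.mem_univ, true_and, Set.mem_ofPred_eq] at hp hp'
      rcases lt_trichotomy i i' with h | h | h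
      · exact absurd ⟨i', h, hp'.1⟩ hp.2
      · rw [h]
      · exact absurd ⟨i, h, hp.1⟩ hp'.2
    simpa using this
  have hsum : ∑ i, ∑ j, a j i = ∑ p : Fin k × Fin r, a p.1 p.2 := by
    rw [Finset.sum_comm, ← Finset.univ_product_univ, Finset.sum_product]
  rw [hsum]
  calc ∑ p : Fin k × Fin r, a p.1 p.2 = ∑ p ∈ T, a p.1 p.2 := by
        refine (Finset.sum_subset (Finset.subset_univ _) ?_).symm
        intro p _ hp
        simpa [T] using hp
    _ ≤ ∑ p ∈ T, 1 := Finset.sum_le_sum (fun p _ => h1 _ _)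
    _ = (T.card : ℝ≥0∞) := by simp
    _ ≤ r + k := by
        rw [hT]
        push_cast
        gcongr

end Pool.Agent.H69.FJ
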