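import Pool.Agent.H69.FJ

set_option autoImplicit false
open Filter Topology
open scoped ENNReal

namespace Pool.Agent.H69.FJ

/-- The Figiel-Johnson estimate for one long average placed after a block. -/
lemma avg_est (m : ℕ → ℕ) (hm : StrictMono m) (z : ℕ → ℕ → ℝ≥0∞) (hz : ∀ i, z i ∈ B)
    (hsupp : ∀ i n, z i n ≠ 0 → m i ≤ n ∧ n < m (i + 1)) (r : ℕ) (hr : 0 < r)
    (hr2 : 4 * m 1 ≤ r) :
    ∀ f, WW f → pair f (fun n => z 0 n + (r : ℝ≥0∞)⁻¹ * ∑ i : Fin r, z (i + 1) n) ≤ 7 / 4 := by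
  intro f hf
  have hr0 : (r : ℝ≥0∞) ≠ 0 := by exact_mod_cast hr.ne'
  have hrt : (r : ℝ≥0∞) ≠ ⊤ := ENNReal.natCast_ne_top r
  rw [pair_add_right, pair_const_right, pair_sum_right]
  have hone : ∀ g, WW g → ∀ i, pair g (z i) ≤ 1 := fun g hg i => hz i g hg
  have havg : ∀ g, WW g → (r : ℝ≥0∞)⁻¹ * ∑ i : Fin r, pair g (z (i + 1)) ≤ 1 := by
    intro g hg
    calc (r : ℝ≥0∞)⁻¹ * ∑ i : Fin r, pair g (z (i + 1)) ≤ (r : ℝ≥0∞)⁻¹ * ∑ i : Fin r, 1 := by
          gcongr with i
          exact hone g hg _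
      _ = 1 := by
          simp
          exact ENNReal.inv_mul_cancel hr0 hrt
  cases hf with
  | zero =>
    simp [pair]
  | single n =>
    simp only [pair_single_left]
    by_cases hn : n < m 1
    · have h1 : ∀ i : Fin r, z (i + 1) n = 0 := by
        intro i
        by_contra hne
        have h2 := (hsupp _ _ hne).1
        have h3 : m 1 ≤ m (i + 1) := hm.monotone (by omega)
        omega
      simp only [h1, Finset.sum_const_zero, mul_zero, add_zero]
      refine (B_le_one (hz 0) n).trans ?_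
      rw [ENNReal.le_div_iff_mul_le (by norm_num) (by norm_num)]
      norm_num
    · have h1 : z 0 n = 0 := by
        by_contra hne
        have := (hsupp _ _ hne).2
        simp only [zero_add] at this
        omega
      have h2 := havg _ (WW.single n)
      simp only [pair_single_left] at h2
      rw [h1, zero_add]
      refine h2.trans ?_
      rw [ENNReal.le_div_iff_mul_le (by norm_num) (by norm_num)]
      norm_num
  | comb k f hf hk hord =>
    by_cases hkm : m 1 ≤ k
    · -- the functional does not see the first block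
      have h1 : pair (fun n => 2⁻¹ * ∑ i, f i n) (z 0) = 0 := by
        unfold pair
        rw [ENNReal.tsum_eq_zero]
        intro n
        by_cases hn : z 0 n = 0
        · simp [hn]
        · have h2 := (hsupp _ _ hn).2
          simp only [zero_add] at h2
          have h3 : ∀ i, f i n = 0 := by
            intro i
            by_contra hne
            have := hk i n hne
            omega
          simp [h3]
      rw [h1, zero_add]
      refine (havg _ (WW.comb k f hf hk hord)).trans ?_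
      rw [ENNReal.le_div_iff_mul_le (by norm_num) (by norm_num)]
      norm_num
    · push Not at hkm
      have h1 : pair (fun n => 2⁻¹ * ∑ i, f i n) (z 0) ≤ 1 := hone _ (WW.comb k f hf hk hord) 0
      have h2 : ∑ i : Fin r, ∑ j : Fin k, pair (f j) (z (i + 1)) ≤ r + k := by
        refine count k r (fun j i => pair (f j) (z (i + 1))) (fun j i => hone _ (hf j) _) ?_
        intro i j j' hjj' hji hj'i i' hii'
        by_contra hne
        -- f j meets block i' + 1 and f j' meets block i + 1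
        have hex : ∀ (g : ℕ → ℝ≥0∞) (w : ℕ → ℝ≥0∞), pair g w ≠ 0 → ∃ n, g n ≠ 0 ∧ w n ≠ 0 := by
          intro g w h
          by_contra hcon
          push Not at hcon
          apply h
          unfold pair
          rw [ENNReal.tsum_eq_zero]
          intro n
          by_cases hg : g n = 0
          · simp [hg]
          · simp [hcon n hg]
        obtain ⟨n, hn1, hn2⟩ := hex _ _ hne
        obtain ⟨n', hn'1, hn'2⟩ := hex _ _ hj'i
        have hlt := hord j j' hjj' n n' hn1 hn'1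
        have h3 := (hsupp _ _ hn2).1
        have h4 := (hsupp _ _ hn'2).2
        have h5 : m (i + 1 + 1) ≤ m (i' + 1) := hm.monotone (by
          have : (i : ℕ) < i' := hii'
          omega)
        omega
      have h3 : ∑ i : Fin r, pair (fun n => 2⁻¹ * ∑ j, f j n) (z (i + 1))
          = 2⁻¹ * ∑ i : Fin r, ∑ j : Fin k, pair (f j) (z (i + 1)) := by
        rw [Finset.mul_sum]
        refine Finset.sum_congr rfl (fun i _ => ?_)
        rw [pair_const_left, pair_sum_left]
      rw [h3]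
      have h4 : (k : ℝ≥0∞) ≤ (r : ℝ≥0∞) / 4 := by
        rw [ENNReal.le_div_iff_mul_le (by norm_num) (by norm_num)]
        have : k * 4 ≤ r := by omega
        exact_mod_cast this
      calc pair (fun n => 2⁻¹ * ∑ i, f i n) (z 0) +
            (r : ℝ≥0∞)⁻¹ * (2⁻¹ * ∑ i : Fin r, ∑ j : Fin k, pair (f j) (z (i + 1)))
          ≤ 1 + (r : ℝ≥0∞)⁻¹ * (2⁻¹ * (r + r / 4)) := by
            gcongr
            exact h2.trans (by gcongr)
        _ = 1 + 2⁻¹ * (1 + 1 / 4) := by
            have : (r : ℝ≥0∞)⁻¹ * (2⁻¹ * (r + r / 4)) = 2⁻¹ * (((r : ℝ≥0∞)⁻¹ * r) + ((r : ℝ≥0∞)⁻¹ * r) / 4) := by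
              rw [ENNReal.div_eq_inv_mul, ENNReal.div_eq_inv_mul]
              ring
            rw [this, ENNReal.inv_mul_cancel hr0 hrt]
        _ ≤ 7 / 4 := by
            rw [ENNReal.le_div_iff_mul_le (by norm_num) (by norm_num)]
            have : (1 + 2⁻¹ * (1 + 1 / 4)) * 4 = (4 : ℝ≥0∞) + (2⁻¹ * 2) * 2 + (2⁻¹ * 2) * ((1 / 4) * 2) := by ring
            rw [this, ENNReal.inv_mul_cancel (by norm_num) (by norm_num)]
            have h5 : (1 / 4 : ℝ≥0∞) * 2 ≤ 1 := by
              rw [one_div, ← ENNReal.div_eq_inv_mul]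
              rw [ENNReal.div_le_iff (by norm_num) (by norm_num)]
              norm_num
            calc (4 : ℝ≥0∞) + 1 * 2 + 1 * ((1 / 4) * 2) ≤ 4 + 1 * 2 + 1 * 1 := by gcongr
              _ = 7 := by norm_num

/-- bounded completeness of the dual norm: tails tend to zero -/
theorem tail_small (t : ℕ → ℝ≥0∞) (ht : tn t ≠ ⊤) (ε : ℝ≥0∞) (hε : ε ≠ 0) :
    ∃ M : ℕ, tn ({n | M ≤ n}.indicator t) ≤ ε := by
  by_contra hcon
  push Not at hcon
  set T : ℕ → ℝ≥0∞ := fun M => tn ({n | M ≤ n}.indicator t) with hT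
  set L := ⨅ M, T M with hL
  have hLε : ε ≤ L := le_iInf (fun M => (hcon M).le)
  have hL0 : L ≠ 0 := fun h => hε (le_antisymm (h ▸ hLε) zero_le)
  have hTt : ∀ M, T M ≤ tn t := fun M => tn_mono (fun n => Set.indicator_le_self _ _ n)
  have hLt : L ≠ ⊤ := ne_top_of_le_ne_top ht ((iInf_le _ 0).trans (hTt 0))
  -- convert to real
  obtain ⟨l, hl⟩ : ∃ l : NNReal, L = l := ⟨L.toNNReal, (ENNReal.coe_toNNReal hLt).symm⟩
  have hl0 : 0 < l := by
    rw [pos_iff_ne_zero]; intro h; apply hL0; rw [hl, h]; rfl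
  have hup : L < ((101 / 100 * l : NNReal) : ℝ≥0∞) := by
    rw [hl]
    rw [ENNReal.coe_lt_coe]
    rw [← NNReal.coe_lt_coe]; push_cast
    have : (0 : ℝ) < l := hl0
    linarith
  have hlow : ((99 / 100 * l : NNReal) : ℝ≥0∞) < L := by
    rw [hl]
    rw [ENNReal.coe_lt_coe]
    rw [← NNReal.coe_lt_coe]; push_cast
    have : (0 : ℝ) < l := hl0
    linarith
  obtain ⟨N0, hN0⟩ : ∃ N0, T N0 < ((101 / 100 * l : NNReal) : ℝ≥0∞) := iInf_lt_iff.mp hup
  have hstep : ∀ M : ℕ, ∃ p : ℕ × (ℕ → ℝ≥0∞), M < p.1 ∧ p.2 ∈ B ∧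
      (∀ n, p.2 n ≠ 0 → M ≤ n ∧ n < p.1) ∧ ((99 / 100 * l : NNReal) : ℝ≥0∞) < pair p.2 t := by
    intro M
    have h1 : ((99 / 100 * l : NNReal) : ℝ≥0∞) < T M := hlow.trans_le (iInf_le _ M)
    rw [hT] at h1
    simp only [tn] at h1
    rw [lt_iSup_iff] at h1
    obtain ⟨z, hz⟩ := h1
    rw [lt_iSup_iff] at hz
    obtain ⟨hzB, hz⟩ := hz
    unfold pair at hz
    rw [ENNReal.tsum_eq_iSup_nat, lt_iSup_iff] at hz
    obtain ⟨N, hN⟩ := hz
    refine ⟨(max N (M + 1), ({n | M ≤ n ∧ n < max N (M + 1)}).indicator z), ?_, B_ind hzB _, ?_, ?_⟩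
    · exact lt_of_lt_of_le (Nat.lt_succ_self M) (le_max_right _ _)
    · intro n hn
      by_contra hne
      apply hn
      dsimp only at hne ⊢
      rw [Set.indicator_of_notMem]
      exact hne
    · refine hN.trans_le ?_
      unfold pair
      refine le_trans ?_ (ENNReal.sum_le_tsum (Finset.range N))
      refine Finset.sum_le_sum (fun n hn => ?_)
      rw [Finset.mem_range] at hn
      dsimp only
      by_cases hMn : M ≤ n
      · have h2 : n ∈ {n | M ≤ n ∧ n < max N (M + 1)} := ⟨hMn, lt_of_lt_of_le hn (le_max_left _ _)⟩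
        have h3 : n ∈ {n | M ≤ n} := hMn
        rw [Set.indicator_of_mem h2, Set.indicator_of_mem h3]
      · have h3 : n ∉ {n | M ≤ n} := hMn
        rw [Set.indicator_of_notMem h3]
        simp
  choose p hp1 hp2 hp3 hp4 using hstep
  let m : ℕ → ℕ := fun i => Nat.rec N0 (fun _ M => (p M).1) i
  have hms : ∀ i, m (i + 1) = (p (m i)).1 := fun i => rfl
  have hm : StrictMono m := strictMono_nat_of_lt_succ (fun i => by rw [hms]; exact hp1 _)
  let z : ℕ → ℕ → ℝ≥0∞ := fun i => (p (m i)).2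
  set r := 4 * m 1 + 1 with hr
  have hrpos : 0 < r := by omega
  have hest := avg_est m hm z (fun i => hp2 _) (fun i n hn => by
    have := hp3 (m i) n hn
    rw [hms]; exact this) r hrpos (by omega)
  set w : ℕ → ℝ≥0∞ := fun n => z 0 n + (r : ℝ≥0∞)⁻¹ * ∑ i : Fin r, z (i + 1) n with hw
  have hr0 : (r : ℝ≥0∞) ≠ 0 := by exact_mod_cast hrpos.ne'
  have hrt : (r : ℝ≥0∞) ≠ ⊤ := ENNReal.natCast_ne_top r
  have hwB : (fun n => (4 / 7) * w n) ∈ B := by
    intro f hf
    rw [pair_const_right]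
    calc (4 / 7 : ℝ≥0∞) * pair f w ≤ (4 / 7) * (7 / 4) := by gcongr; exact hest f hf
      _ = 1 := by
        rw [ENNReal.div_eq_inv_mul, ENNReal.div_eq_inv_mul]
        have : (7⁻¹ * 4 * (4⁻¹ * 7) : ℝ≥0∞) = (7⁻¹ * 7) * (4⁻¹ * 4) := by ring
        rw [this, ENNReal.inv_mul_cancel (by norm_num) (by norm_num),
          ENNReal.inv_mul_cancel (by norm_num) (by norm_num), one_mul]
  have hw1 : ((198 / 100 * l : NNReal) : ℝ≥0∞) ≤ pair w t := by
    have h1 : pair w t = pair (z 0) t + (r : ℝ≥0∞)⁻¹ * ∑ i : Fin r, pair (z (i + 1)) t := by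
      rw [hw, pair_add_left, pair_const_left, pair_sum_left]
    have h2 : ∀ i, ((99 / 100 * l : NNReal) : ℝ≥0∞) ≤ pair (z i) t := fun i => (hp4 _).le
    rw [h1]
    calc ((198 / 100 * l : NNReal) : ℝ≥0∞)
        = ((99 / 100 * l : NNReal) : ℝ≥0∞) + ((99 / 100 * l : NNReal) : ℝ≥0∞) := by
          rw [← ENNReal.coe_add]
          congr 1
          rw [← NNReal.coe_inj]; push_cast; ring
      _ = ((99 / 100 * l : NNReal) : ℝ≥0∞) + (r : ℝ≥0∞)⁻¹ * ∑ i : Fin r, ((99 / 100 * l : NNReal) : ℝ≥0∞) := by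
          congr 1
          simp only [Finset.sum_const, Finset.card_univ, Fintype.card_fin, nsmul_eq_mul]
          rw [← mul_assoc, ENNReal.inv_mul_cancel hr0 hrt, one_mul]
      _ ≤ _ := by
          gcongr with i
          · exact h2 0
          · exact h2 (i + 1)
  have hw2 : pair w t = pair w ({n | N0 ≤ n}.indicator t) := by
    unfold pair
    congr 1
    funext n
    by_cases hn : N0 ≤ n
    · rw [Set.indicator_of_mem (show n ∈ {n | N0 ≤ n} from hn)]
    · have hz0 : ∀ i, z i n = 0 := by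
        intro i
        by_contra hne
        have h1 := (hp3 (m i) n hne).1
        have h2 : m 0 ≤ m i := hm.monotone (Nat.zero_le i)
        have h3 : m 0 = N0 := rfl
        omega
      have : w n = 0 := by
        simp only [hw, hz0, Finset.sum_const_zero, mul_zero, add_zero]
      rw [this]; simp
  have hw3 : (4 / 7) * pair w t ≤ ((101 / 100 * l : NNReal) : ℝ≥0∞) := by
    rw [hw2, ← pair_const_left]
    exact (le_tn hwB _).trans hN0.le
  have hfin : (4 / 7 : ℝ≥0∞) * ((198 / 100 * l : NNReal) : ℝ≥0∞) ≤ ((101 / 100 * l : NNReal) : ℝ≥0∞) :=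
    (mul_le_mul_right hw1 _).trans hw3
  have h47 : (4 / 7 : ℝ≥0∞) = ((4 / 7 : NNReal) : ℝ≥0∞) := by
    rw [ENNReal.coe_div (by norm_num)]; norm_num
  rw [h47, ← ENNReal.coe_mul, ENNReal.coe_le_coe, ← NNReal.coe_le_coe] at hfin
  push_cast at hfin
  have : (0 : ℝ) < l := hl0
  linarith

end Pool.Agent.H69.FJ
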