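import Pool.Agent.H69.Wsc

set_option autoImplicit false
open Filter Topology

namespace Pool.Agent.H69

/-- the interval attached to a pair -/
def ivl (I : ℕ × ℕ) : Finset ℕ := Finset.Ico I.1 I.2

/-- The weights whose squares sum to at most one along each family of disjoint intervals. -/
def ivlWeights : Set (ℕ × ℕ → ℝ) :=
  {w | ∀ B : Finset (ℕ × ℕ), (B : Set (ℕ × ℕ)).PairwiseDisjoint ivl → ∑ I ∈ B, w I ^ 2 ≤ 1}

/-- an indicator of a set meeting each disjoint family at most once is a weight -/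
lemma ind_mem_ivlWeights (p : ℕ × ℕ → Prop) [DecidablePred p]
    (hp : ∀ B : Finset (ℕ × ℕ), (B : Set (ℕ × ℕ)).PairwiseDisjoint ivl →
      (B.filter p).card ≤ 1) : (fun I => if p I then (1 : ℝ) else 0) ∈ ivlWeights := by
  intro B hB
  have h1 : ∑ I ∈ B, (if p I then (1 : ℝ) else 0) ^ 2 = ((B.filter p).card : ℝ) := by
    rw [Finset.card_filter]
    push_cast
    refine Finset.sum_congr rfl (fun I _ => ?_)
    split_ifs <;> simp
  show ∑ I ∈ B, (if p I then (1 : ℝ) else 0) ^ 2 ≤ 1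
  rw [h1]
  exact_mod_cast hp B hB

/-- The family of interval weights. -/
noncomputable def ivlFam : SolidFam (ℕ × ℕ) where
  V := ivlWeights
  abs_le := by
    intro v hv I
    have := hv {I} (by simp)
    simpa using this
  coord := by
    classical
    intro I
    have := ind_mem_ivlWeights (fun J => J = I) (by
      intro B _
      rw [Finset.card_le_one]
      intro a ha b hb
      simp only [Finset.mem_filter] at ha hb
      rw [ha.2, hb.2])
    convert this
  mul := by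
    intro v hv m hm B hB
    refine le_trans (Finset.sum_le_sum (fun I _ => ?_)) (hv B hB)
    rw [mul_pow]
    have h1 : m I ^ 2 ≤ 1 := by
      rw [sq_le_one_iff_abs_le_one]; exact hm I
    nlinarith [sq_nonneg (v I)]

/-- finitely supported combination -/
noncomputable def fc (F : Finset (ℕ × ℕ)) (a : ℕ × ℕ → ℝ) : ivlFam.X := ∑ γ ∈ F, a γ • ivlFam.e γ

lemma ev_fc (v : ivlFam.V) (F : Finset (ℕ × ℕ)) (a : ℕ × ℕ → ℝ) :
    ivlFam.ev v (fc F a) = ∑ γ ∈ F, a γ * v.1 γ := by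
  simp [fc, map_sum]

/-- lower 2-estimate -/
lemma lower_two (F G : Finset (ℕ × ℕ)) (hFG : Disjoint F G) (a : ℕ × ℕ → ℝ) :
    ‖fc F a‖ ^ 2 + ‖fc G a‖ ^ 2 ≤ ‖fc (F ∪ G) a‖ ^ 2 := by
  classical
  set N := ‖fc (F ∪ G) a‖ with hN
  have hN0 : 0 ≤ N := norm_nonneg _
  have key : ∀ v w : ivlFam.V, (ivlFam.ev v (fc F a)) ^ 2 + (ivlFam.ev w (fc G a)) ^ 2 ≤ N ^ 2 := by
    intro v w
    set α := ivlFam.ev v (fc F a) with hα
    set β := ivlFam.ev w (fc G a) with hβ
    by_cases hz : α ^ 2 + β ^ 2 = 0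
    · rw [hz]; positivity
    have hpos : 0 < α ^ 2 + β ^ 2 := lt_of_le_of_ne (by positivity) (Ne.symm hz)
    set s := Real.sqrt (α ^ 2 + β ^ 2) with hs
    have hs0 : 0 < s := Real.sqrt_pos.mpr hpos
    have hs2 : s ^ 2 = α ^ 2 + β ^ 2 := Real.sq_sqrt hpos.le
    let u : ℕ × ℕ → ℝ := fun I => if I ∈ F then (α / s) * v.1 I else if I ∈ G then (β / s) * w.1 I else 0
    have hu : u ∈ ivlFam.V := by
      intro B hB
      have h1 : ∀ I ∈ B, u I ^ 2 ≤ (α / s) ^ 2 * v.1 I ^ 2 + (β / s) ^ 2 * w.1 I ^ 2 := by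
        intro I _
        have q1 : 0 ≤ (α / s) ^ 2 * v.1 I ^ 2 := by positivity
        have q2 : 0 ≤ (β / s) ^ 2 * w.1 I ^ 2 := by positivity
        simp only [u]
        split_ifs
        · rw [mul_pow]; linarith
        · rw [mul_pow]; linarith
        · simpa using add_nonneg q1 q2
      calc ∑ I ∈ B, u I ^ 2 ≤ ∑ I ∈ B, ((α / s) ^ 2 * v.1 I ^ 2 + (β / s) ^ 2 * w.1 I ^ 2) :=
            Finset.sum_le_sum h1
        _ = (α / s) ^ 2 * ∑ I ∈ B, v.1 I ^ 2 + (β / s) ^ 2 * ∑ I ∈ B, w.1 I ^ 2 := by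
            rw [Finset.sum_add_distrib, Finset.mul_sum, Finset.mul_sum]
        _ ≤ (α / s) ^ 2 * 1 + (β / s) ^ 2 * 1 := by
            gcongr
            · exact v.2 B hB
            · exact w.2 B hB
        _ = 1 := by
            rw [div_pow, div_pow, hs2]; field_simp
    have h2 : ivlFam.ev ⟨u, hu⟩ (fc (F ∪ G) a) = s := by
      rw [ev_fc, Finset.sum_union hFG]
      have hαe : α = ∑ γ ∈ F, a γ * v.1 γ := by rw [hα, ev_fc]
      have hβe : β = ∑ γ ∈ G, a γ * w.1 γ := by rw [hβ, ev_fc]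
      have h3 : ∑ γ ∈ F, a γ * u γ = (α / s) * α := by
        calc ∑ γ ∈ F, a γ * u γ = ∑ γ ∈ F, (α / s) * (a γ * v.1 γ) := by
              refine Finset.sum_congr rfl (fun γ hγ => ?_)
              simp only [u, hγ, if_true]
              ring
          _ = (α / s) * ∑ γ ∈ F, a γ * v.1 γ := by rw [Finset.mul_sum]
          _ = (α / s) * α := by rw [← hαe]
      have h4 : ∑ γ ∈ G, a γ * u γ = (β / s) * β := by
        calc ∑ γ ∈ G, a γ * u γ = ∑ γ ∈ G, (β / s) * (a γ * w.1 γ) := by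
              refine Finset.sum_congr rfl (fun γ hγ => ?_)
              have : γ ∉ F := fun h => (Finset.disjoint_left.mp hFG h) hγ
              simp only [u, hγ, this, if_true, if_false]
              ring
          _ = (β / s) * ∑ γ ∈ G, a γ * w.1 γ := by rw [Finset.mul_sum]
          _ = (β / s) * β := by rw [← hβe]
      show ∑ γ ∈ F, a γ * u γ + ∑ γ ∈ G, a γ * u γ = s
      rw [h3, h4]
      field_simp
      linarith
    have h5 := ivlFam.abs_ev_le ⟨u, hu⟩ (fc (F ∪ G) a)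
    rw [h2, abs_of_pos hs0] at h5
    rw [← hs2]
    exact pow_le_pow_left₀ hs0.le h5 2
  have hF : ∀ w : ivlFam.V, ‖fc F a‖ ^ 2 + (ivlFam.ev w (fc G a)) ^ 2 ≤ N ^ 2 := by
    intro w
    have h0 : 0 ≤ N ^ 2 - (ivlFam.ev w (fc G a)) ^ 2 := by
      have := key w w
      nlinarith [sq_nonneg (ivlFam.ev w (fc F a))]
    have h1 : ‖fc F a‖ ≤ Real.sqrt (N ^ 2 - (ivlFam.ev w (fc G a)) ^ 2) := by
      rw [ivlFam.norm_le_iff _ (Real.sqrt_nonneg _)]
      intro v
      apply Real.abs_le_sqrt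
      linarith [key v w]
    have h2 := pow_le_pow_left₀ (norm_nonneg _) h1 2
    rw [Real.sq_sqrt h0] at h2
    linarith
  have h0 : 0 ≤ N ^ 2 - ‖fc F a‖ ^ 2 := by
    have := hF (ivlFam.cv (0, 0))
    nlinarith [sq_nonneg (ivlFam.ev (ivlFam.cv (0, 0)) (fc G a))]
  have h1 : ‖fc G a‖ ≤ Real.sqrt (N ^ 2 - ‖fc F a‖ ^ 2) := by
    rw [ivlFam.norm_le_iff _ (Real.sqrt_nonneg _)]
    intro w
    apply Real.abs_le_sqrt
    linarith [hF w]
  have h2 := pow_le_pow_left₀ (norm_nonneg _) h1 2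
  rw [Real.sq_sqrt h0] at h2
  linarith

/-- bounded completeness -/
lemma bdd_complete (y : ℕ × ℕ → ℝ) (hy : ∃ C : ℝ, ∀ F : Finset (ℕ × ℕ), ‖∑ γ ∈ F, y γ • ivlFam.e γ‖ ≤ C) :
    Summable (fun γ => y γ • ivlFam.e γ) := by
  classical
  obtain ⟨C, hC⟩ := hy
  rw [summable_iff_vanishing_norm]
  intro ε hε
  have hbdd : BddAbove (Set.range (fun F : Finset (ℕ × ℕ) => ‖fc F y‖ ^ 2)) := by
    refine ⟨C ^ 2, ?_⟩
    rintro _ ⟨F, rfl⟩
    exact pow_le_pow_left₀ (norm_nonneg _) (hC F) 2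
  have hlt : (⨆ F : Finset (ℕ × ℕ), ‖fc F y‖ ^ 2) - ε ^ 2 < ⨆ F : Finset (ℕ × ℕ), ‖fc F y‖ ^ 2 := by
    have : 0 < ε ^ 2 := by positivity
    linarith
  obtain ⟨F0, hF0⟩ := exists_lt_of_lt_ciSup hlt
  refine ⟨F0, fun F hF => ?_⟩
  have h1 := lower_two F0 F hF.symm y
  have h2 : ‖fc (F0 ∪ F) y‖ ^ 2 ≤ ⨆ F : Finset (ℕ × ℕ), ‖fc F y‖ ^ 2 := le_ciSup hbdd (F0 ∪ F)
  have h3 : ‖fc F y‖ ^ 2 < ε ^ 2 := by linarith
  exact lt_of_pow_lt_pow_left₀ 2 hε.le h3

/-- the point of the family giving the sum over intervals containing `n` -/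
noncomputable def ptn (n : ℕ) : ivlFam.V :=
  ⟨fun I => if n ∈ ivl I then (1 : ℝ) else 0, ind_mem_ivlWeights _ (by
    intro B hB
    rw [Finset.card_le_one]
    intro a ha b hb
    simp only [Finset.mem_filter] at ha hb
    by_contra hab
    have := hB (Finset.mem_coe.mpr ha.1) (Finset.mem_coe.mpr hb.1) hab
    exact (Finset.disjoint_left.mp this ha.2) hb.2)⟩

/-- the weak star null sequence -/
noncomputable def fn (n : ℕ) : ivlFam.X →L[ℝ] ℝ := ivlFam.ev (ptn n)

lemma fn_e (n : ℕ) (I : ℕ × ℕ) : fn n (ivlFam.e I) = if n ∈ ivl I then (1 : ℝ) else 0 := rfl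

lemma fn_tendsto (x : ivlFam.X) : Tendsto (fun n => fn n x) atTop (𝓝 0) := by
  rw [Metric.tendsto_atTop]
  intro ε hε
  obtain ⟨F, hF⟩ := ivlFam.exists_P x (ε / 2) (by positivity)
  have h1 := hF F (Finset.Subset.refl _)
  obtain ⟨N, hN⟩ : ∃ N, ∀ I ∈ F, I.2 ≤ N := ⟨F.sup Prod.snd, fun I hI => Finset.le_sup (f := Prod.snd) hI⟩
  refine ⟨N, fun n hn => ?_⟩
  have h2 : fn n (ivlFam.P F x) = 0 := by
    rw [SolidFam.P_eq, map_sum]
    refine Finset.sum_eq_zero (fun I hI => ?_)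
    rw [map_smul, fn_e]
    have : n ∉ ivl I := by
      simp only [ivl, Finset.mem_Ico, not_and, not_lt]
      intro _
      exact (hN I hI).trans hn
    simp [this]
  have h3 : fn n x = fn n (x - ivlFam.P F x) := by rw [map_sub, h2, sub_zero]
  rw [Real.dist_eq, sub_zero, h3]
  exact lt_of_le_of_lt ((ivlFam.abs_ev_le _ _).trans h1) (by linarith)

instance : TopologicalSpace.SeparableSpace ivlFam.X := by
  have h1 : TopologicalSpace.IsSeparable (Submodule.span ℝ (Set.range ivlFam.e) : Set ivlFam.X) :=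
    (Set.countable_range ivlFam.e).isSeparable.span
  have h2 := h1.closure
  rw [ivlFam.dense_span.closure_eq] at h2
  exact TopologicalSpace.isSeparable_univ_iff.mp h2

/-- unit vectors along disjoint intervals are weakly null -/
lemma weakly_null (p : ℕ → ℕ) (hp : StrictMono p) (f : ivlFam.X →L[ℝ] ℝ) :
    Tendsto (fun n => f (ivlFam.e (p n, p (n + 1)))) atTop (𝓝 0) := by
  classical
  set u : ℕ → ivlFam.X := fun n => ivlFam.e (p n, p (n + 1)) with hu
  have hdisj : ∀ i j, i < j → Disjoint (ivl (p i, p (i + 1))) (ivl (p j, p (j + 1))) := by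
    intro i j hij
    rw [Finset.disjoint_left]
    intro a ha hb
    simp only [ivl, Finset.mem_Ico] at ha hb
    have : p (i + 1) ≤ p j := hp.monotone hij
    omega
  have hinj : Function.Injective (fun n => (p n, p (n + 1))) := by
    intro i j hij
    exact hp.injective (Prod.ext_iff.mp hij).1
  have hnorm : ∀ (N : ℕ) (c : ℕ → ℝ), ‖∑ n ∈ Finset.range N, c n • u n‖ ≤
      Real.sqrt (∑ n ∈ Finset.range N, c n ^ 2) := by
    intro N c
    rw [ivlFam.norm_le_iff _ (Real.sqrt_nonneg _)]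
    intro v
    apply Real.abs_le_sqrt
    have h1 : ivlFam.ev v (∑ n ∈ Finset.range N, c n • u n)
        = ∑ n ∈ Finset.range N, c n * v.1 (p n, p (n + 1)) := by
      simp [map_sum, hu]
    rw [h1]
    have h2 := Finset.sum_mul_sq_le_sq_mul_sq (Finset.range N) c (fun n => v.1 (p n, p (n + 1)))
    have h3 : ∑ n ∈ Finset.range N, v.1 (p n, p (n + 1)) ^ 2 ≤ 1 := by
      have h4 := v.2 ((Finset.range N).image (fun n => (p n, p (n + 1)))) (by
        intro a ha b hb hab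
        simp only [Finset.coe_image, Set.mem_image, Finset.mem_coe] at ha hb
        obtain ⟨i, _, rfl⟩ := ha
        obtain ⟨j, _, rfl⟩ := hb
        rcases lt_trichotomy i j with h | h | h
        · exact hdisj i j h
        · subst h; exact absurd rfl hab
        · exact (hdisj j i h).symm)
      rw [Finset.sum_image (fun a _ b _ h => hinj h)] at h4
      exact h4
    calc _ ≤ (∑ n ∈ Finset.range N, c n ^ 2) * ∑ n ∈ Finset.range N, v.1 (p n, p (n + 1)) ^ 2 := h2
      _ ≤ (∑ n ∈ Finset.range N, c n ^ 2) * 1 := by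
        gcongr
      _ = _ := mul_one _
  have hsum : ∀ N, ∑ n ∈ Finset.range N, (f (u n)) ^ 2 ≤ ‖f‖ ^ 2 := by
    intro N
    set t := ∑ n ∈ Finset.range N, (f (u n)) ^ 2 with ht
    have ht0 : 0 ≤ t := Finset.sum_nonneg (fun _ _ => sq_nonneg _)
    have h1 : t = f (∑ n ∈ Finset.range N, f (u n) • u n) := by
      rw [map_sum, ht]
      refine Finset.sum_congr rfl (fun n _ => ?_)
      rw [map_smul, smul_eq_mul, sq]
    have h2 : t ≤ ‖f‖ * Real.sqrt t := by
      calc t = f (∑ n ∈ Finset.range N, f (u n) • u n) := h1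
        _ ≤ ‖f (∑ n ∈ Finset.range N, f (u n) • u n)‖ := le_abs_self _
        _ ≤ ‖f‖ * ‖∑ n ∈ Finset.range N, f (u n) • u n‖ := f.le_opNorm _
        _ ≤ ‖f‖ * Real.sqrt t := by gcongr; exact hnorm N _
    have hst : Real.sqrt t ^ 2 = t := Real.sq_sqrt ht0
    have hsn : 0 ≤ Real.sqrt t := Real.sqrt_nonneg t
    have h3 : Real.sqrt t ≤ ‖f‖ := by
      by_contra hlt
      push Not at hlt
      have : 0 < Real.sqrt t := lt_of_le_of_lt (norm_nonneg f) hlt
      nlinarith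
    rw [← hst]
    exact pow_le_pow_left₀ hsn h3 2
  have hsummable : Summable (fun n => (f (u n)) ^ 2) :=
    summable_of_sum_range_le (fun _ => sq_nonneg _) hsum
  have h0 := hsummable.tendsto_atTop_zero
  have h1 : Tendsto (fun n => |f (u n)|) atTop (𝓝 0) := by
    have := h0.sqrt
    simpa [Real.sqrt_sq_eq_abs] using this
  exact (tendsto_zero_iff_abs_tendsto_zero _).mpr h1

lemma weak_compact (u : ℕ → ivlFam.X)
    (hu : ∀ f : ivlFam.X →L[ℝ] ℝ, Tendsto (fun n => f (u n)) atTop (𝓝 0)) :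
    IsCompact (toWeakSpace ℝ ivlFam.X '' (insert 0 (Set.range u))) := by
  have h1 : Tendsto (fun n => toWeakSpace ℝ ivlFam.X (u n)) atTop (𝓝 (toWeakSpace ℝ ivlFam.X 0)) := by
    have hind : Topology.IsInducing (fun (x : WeakSpace ℝ ivlFam.X) (f : ivlFam.X →L[ℝ] ℝ) =>
      (topDualPairing ℝ ivlFam.X).flip x f) := ⟨rfl⟩
    rw [hind.tendsto_nhds_iff, tendsto_pi_nhds]
    intro f
    have := hu f
    rw [← map_zero f] at this
    exact this
  have h2 := h1.isCompact_insert_range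
  convert h2 using 1
  rw [Set.image_insert_eq, ← Set.range_comp]
  rfl

end Pool.Agent.H69
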