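import Pool.Agent.H69.FJTail
import Pool.Agent.H69.Half

set_option autoImplicit false
open Filter Topology
open scoped ENNReal

namespace Pool.Agent.H69.Long

variable {Γ : Type}

/-- `2^-(n+1)` times the sum of the `4^n` largest coordinates -/
noncomputable def q (n : ℕ) (y : Γ → ℝ) : ℝ≥0∞ :=
  ⨆ (s : Finset Γ) (_ : s.card ≤ 4 ^ n), (2⁻¹ : ℝ≥0∞) ^ (n + 1) * ∑ γ ∈ s, ‖y γ‖ₑ

/-- the norm -/
noncomputable def N (y : Γ → ℝ) : ℝ≥0∞ := FJ.tn (fun n => q n y)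

lemma le_q (n : ℕ) (y : Γ → ℝ) (s : Finset Γ) (hs : s.card ≤ 4 ^ n) :
    (2⁻¹ : ℝ≥0∞) ^ (n + 1) * ∑ γ ∈ s, ‖y γ‖ₑ ≤ q n y :=
  le_iSup₂ (f := fun (s : Finset Γ) (_ : s.card ≤ 4 ^ n) =>
    (2⁻¹ : ℝ≥0∞) ^ (n + 1) * ∑ γ ∈ s, ‖y γ‖ₑ) s hs

lemma q_le {n : ℕ} {y : Γ → ℝ} {C : ℝ≥0∞}
    (h : ∀ s : Finset Γ, s.card ≤ 4 ^ n → (2⁻¹ : ℝ≥0∞) ^ (n + 1) * ∑ γ ∈ s, ‖y γ‖ₑ ≤ C) :
    q n y ≤ C := iSup₂_le h

lemma q_mono (n : ℕ) {y y' : Γ → ℝ} (h : ∀ γ, ‖y γ‖ₑ ≤ ‖y' γ‖ₑ) : q n y ≤ q n y' :=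
  q_le (fun s hs => le_trans (by gcongr with γ; exact h γ) (le_q n y' s hs))

lemma q_add (n : ℕ) (y y' : Γ → ℝ) : q n (fun γ => y γ + y' γ) ≤ q n y + q n y' := by
  refine q_le (fun s hs => ?_)
  calc (2⁻¹ : ℝ≥0∞) ^ (n + 1) * ∑ γ ∈ s, ‖y γ + y' γ‖ₑ
      ≤ (2⁻¹ : ℝ≥0∞) ^ (n + 1) * ∑ γ ∈ s, (‖y γ‖ₑ + ‖y' γ‖ₑ) := by
        gcongr with γ; exact enorm_add_le _ _
    _ = (2⁻¹ : ℝ≥0∞) ^ (n + 1) * ∑ γ ∈ s, ‖y γ‖ₑ + (2⁻¹ : ℝ≥0∞) ^ (n + 1) * ∑ γ ∈ s, ‖y' γ‖ₑ := by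
        rw [Finset.sum_add_distrib, mul_add]
    _ ≤ _ := add_le_add (le_q n y s hs) (le_q n y' s hs)

lemma q_smul (n : ℕ) (c : ℝ) (y : Γ → ℝ) : q n (fun γ => c * y γ) = ‖c‖ₑ * q n y := by
  unfold q
  simp only [ENNReal.mul_iSup, enorm_mul]
  congr 1; funext s
  congr 1; funext _
  rw [← Finset.mul_sum]
  ring

lemma q_zero (n : ℕ) : q n (fun _ : Γ => (0 : ℝ)) = 0 := by
  have := q_smul n 0 (fun _ : Γ => (0 : ℝ))
  simpa using this

lemma q_sum {ι : Type*} (n : ℕ) (s : Finset ι) (y : ι → Γ → ℝ) :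
    q n (fun γ => ∑ i ∈ s, y i γ) ≤ ∑ i ∈ s, q n (y i) := by
  classical
  induction s using Finset.induction_on with
  | empty => simp [q_zero]
  | insert i s hi ih =>
    simp only [Finset.sum_insert hi]
    exact (q_add n _ _).trans (by gcongr)

lemma q_le_of_le (n : ℕ) (y : Γ → ℝ) (c : ℝ≥0∞) (h : ∀ γ, ‖y γ‖ₑ ≤ c) : q n y ≤ 2 ^ n * c := by
  refine q_le (fun s hs => ?_)
  calc (2⁻¹ : ℝ≥0∞) ^ (n + 1) * ∑ γ ∈ s, ‖y γ‖ₑ ≤ (2⁻¹ : ℝ≥0∞) ^ (n + 1) * ∑ γ ∈ s, c := by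
        gcongr with γ; exact h γ
    _ = (2⁻¹ : ℝ≥0∞) ^ (n + 1) * (s.card * c) := by simp
    _ ≤ (2⁻¹ : ℝ≥0∞) ^ n * (4 ^ n * c) := by
        have h0 : (2⁻¹ : ℝ≥0∞) ^ (n + 1) ≤ (2⁻¹ : ℝ≥0∞) ^ n := by
          rw [pow_succ]
          calc (2⁻¹ : ℝ≥0∞) ^ n * 2⁻¹ ≤ (2⁻¹ : ℝ≥0∞) ^ n * 1 := by
                gcongr; exact ENNReal.inv_le_one.mpr (by norm_num)
            _ = _ := mul_one _
        have h1 : (s.card : ℝ≥0∞) ≤ 4 ^ n := by exact_mod_cast hs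
        exact mul_le_mul' h0 (mul_le_mul' h1 le_rfl)
    _ = 2 ^ n * c := by
        have h4 : (4 : ℝ≥0∞) ^ n = 2 ^ n * 2 ^ n := by
          rw [← mul_pow]; norm_num
        rw [h4]
        calc (2⁻¹ : ℝ≥0∞) ^ n * (2 ^ n * 2 ^ n * c) = ((2⁻¹ * 2) ^ n) * (2 ^ n * c) := by
              rw [mul_pow]; ring
          _ = 2 ^ n * c := by
              rw [ENNReal.inv_mul_cancel (by norm_num) (by norm_num), one_pow, one_mul]

open Classical in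
/-- restriction of a function to a finite set -/
noncomputable def cut (F : Finset Γ) (a : Γ → ℝ) : Γ → ℝ := fun γ => if γ ∈ F then a γ else 0

lemma cut_enorm_le (F : Finset Γ) (a : Γ → ℝ) (γ : Γ) : ‖cut F a γ‖ₑ ≤ ‖a γ‖ₑ := by
  unfold cut; split_ifs <;> simp

lemma sum_cut_le (F s : Finset Γ) (a : Γ → ℝ) : ∑ γ ∈ s, ‖cut F a γ‖ₑ ≤ ∑ γ ∈ F, ‖a γ‖ₑ := by
  classical
  calc ∑ γ ∈ s, ‖cut F a γ‖ₑ = ∑ γ ∈ s ∩ F, ‖a γ‖ₑ := by
        rw [← Finset.filter_mem_eq_inter, Finset.sum_filter]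
        refine Finset.sum_congr rfl (fun γ _ => ?_)
        unfold cut; split_ifs <;> simp
    _ ≤ ∑ γ ∈ F, ‖a γ‖ₑ := Finset.sum_le_sum_of_subset Finset.inter_subset_right

lemma q_cut_le (n : ℕ) (F : Finset Γ) (a : Γ → ℝ) :
    q n (cut F a) ≤ (2⁻¹ : ℝ≥0∞) ^ (n + 1) * ∑ γ ∈ F, ‖a γ‖ₑ :=
  q_le (fun s _ => by gcongr; exact sum_cut_le F s a)

lemma N_mono {y y' : Γ → ℝ} (h : ∀ γ, ‖y γ‖ₑ ≤ ‖y' γ‖ₑ) : N y ≤ N y' :=
  FJ.tn_mono (fun n => q_mono n h)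

lemma half_le_N (y : Γ → ℝ) (γ : Γ) : 2⁻¹ * ‖y γ‖ₑ ≤ N y := by
  have h1 := le_q 0 y {γ} (by simp)
  simp only [zero_add, pow_one, Finset.sum_singleton] at h1
  exact h1.trans (FJ.coord_le_tn (fun n => q n y) 0)

lemma tsum_half : ∑' n : ℕ, (2⁻¹ : ℝ≥0∞) ^ (n + 1) = 1 := by
  rw [ENNReal.tsum_geometric_add_one, ENNReal.one_sub_inv_two, inv_inv,
    ENNReal.inv_mul_cancel (by norm_num) (by norm_num)]

lemma N_cut_le (F : Finset Γ) (a : Γ → ℝ) : N (cut F a) ≤ ∑ γ ∈ F, ‖a γ‖ₑ := by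
  refine (FJ.tn_le_tsum _).trans ?_
  calc ∑' n, q n (cut F a) ≤ ∑' n, (2⁻¹ : ℝ≥0∞) ^ (n + 1) * ∑ γ ∈ F, ‖a γ‖ₑ :=
        ENNReal.tsum_le_tsum (fun n => q_cut_le n F a)
    _ = ∑ γ ∈ F, ‖a γ‖ₑ := by rw [ENNReal.tsum_mul_right, tsum_half, one_mul]

/-- The functionals dominated by the norm. -/
def longV (Γ : Type) : Set (Γ → ℝ) :=
  {v | ∀ (F : Finset Γ) (a : Γ → ℝ), ∑ γ ∈ F, ‖a γ‖ₑ * ‖v γ‖ₑ ≤ N (cut F a)}

/-- The solid family of the long space. -/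
noncomputable def longFam (Γ : Type) : Half.SolidFam Γ where
  V := longV Γ
  abs_le := by
    intro v hv γ
    have h1 := (hv {γ} (fun _ => 1)).trans (N_cut_le _ _)
    simp only [Finset.sum_singleton, enorm_one, one_mul] at h1
    rw [Real.enorm_eq_ofReal_abs, ENNReal.ofReal_le_one] at h1
    exact h1
  coord := by
    classical
    intro γ F a
    by_cases h : γ ∈ F
    · rw [Finset.sum_eq_single γ]
      · have h1 := half_le_N (cut F a) γ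
        simp only [cut, h, if_true] at h1
        dsimp only
        rw [if_pos rfl]
        calc ‖a γ‖ₑ * ‖(1 / 2 : ℝ)‖ₑ = 2⁻¹ * ‖a γ‖ₑ := by
              rw [mul_comm]
              congr 1
              rw [Real.enorm_eq_ofReal_abs]
              rw [abs_of_pos (by norm_num), one_div, ENNReal.ofReal_inv_of_pos (by norm_num)]
              norm_num
          _ ≤ _ := h1
      · intro b _ hb
        simp [hb]
      · intro h'; exact absurd h h'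
    · rw [Finset.sum_eq_zero]
      · exact zero_le
      · intro b hb
        have : b ≠ γ := fun hh => h (hh ▸ hb)
        simp [this]
  mul := by
    intro v hv m hm F a
    refine le_trans (Finset.sum_le_sum (fun γ _ => ?_)) (hv F a)
    gcongr
    rw [enorm_mul]
    calc ‖m γ‖ₑ * ‖v γ‖ₑ ≤ 1 * ‖v γ‖ₑ := by
          gcongr
          rw [Real.enorm_eq_ofReal_abs, ENNReal.ofReal_le_one]
          exact hm γ
      _ = ‖v γ‖ₑ := one_mul _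

/-- finitely supported combinations -/
noncomputable def fc (F : Finset Γ) (a : Γ → ℝ) : (longFam Γ).X := ∑ γ ∈ F, a γ • (longFam Γ).e γ

lemma ev_fc (v : (longFam Γ).V) (F : Finset Γ) (a : Γ → ℝ) :
    (longFam Γ).ev v (fc F a) = ∑ γ ∈ F, a γ * v.1 γ := by
  simp [fc, map_sum]

lemma enorm_ev_le (v : (longFam Γ).V) (x : (longFam Γ).X) : ‖(longFam Γ).ev v x‖ₑ ≤ ‖x‖ₑ := by
  rw [← ofReal_norm, ← ofReal_norm]
  exact ENNReal.ofReal_le_ofReal ((longFam Γ).abs_ev_le v x)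

lemma enorm_le_of_ev (x : (longFam Γ).X) (C : ℝ≥0∞) (h : ∀ v, ‖(longFam Γ).ev v x‖ₑ ≤ C) : ‖x‖ₑ ≤ C := by
  by_cases hC : C = ⊤
  · rw [hC]; exact le_top
  rw [← ENNReal.ofReal_toReal hC, ← ofReal_norm]
  apply ENNReal.ofReal_le_ofReal
  rw [(longFam Γ).norm_le_iff _ ENNReal.toReal_nonneg]
  intro v
  have := ENNReal.toReal_mono hC (h v)
  simpa using this

lemma q_cut_attained (n : ℕ) (F : Finset Γ) (a : Γ → ℝ) :
    ∃ s : Finset Γ, s ⊆ F ∧ s.card ≤ 4 ^ n ∧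
      q n (cut F a) = (2⁻¹ : ℝ≥0∞) ^ (n + 1) * ∑ γ ∈ s, ‖a γ‖ₑ := by
  classical
  obtain ⟨s, hs, hmax⟩ := Finset.exists_max_image (F.powerset.filter (fun s => s.card ≤ 4 ^ n))
    (fun s => ∑ γ ∈ s, ‖a γ‖ₑ) ⟨∅, by simp⟩
  simp only [Finset.mem_filter, Finset.mem_powerset] at hs hmax
  refine ⟨s, hs.1, hs.2, le_antisymm ?_ ?_⟩
  · refine q_le (fun s' hs' => ?_)
    gcongr
    have h1 : ∑ γ ∈ s', ‖cut F a γ‖ₑ = ∑ γ ∈ s' ∩ F, ‖a γ‖ₑ := by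
      rw [← Finset.filter_mem_eq_inter, Finset.sum_filter]
      refine Finset.sum_congr rfl (fun γ _ => ?_)
      unfold cut; split_ifs <;> simp
    rw [h1]
    exact hmax (s' ∩ F) ⟨Finset.inter_subset_right, (Finset.card_le_card Finset.inter_subset_left).trans hs'⟩
  · have h1 : ∑ γ ∈ s, ‖a γ‖ₑ = ∑ γ ∈ s, ‖cut F a γ‖ₑ := by
      refine Finset.sum_congr rfl (fun γ hγ => ?_)
      simp [cut, hs.1 hγ]
    rw [h1]
    exact le_q n _ s hs.2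

/-- The norm formula. -/
theorem enorm_fc (F : Finset Γ) (a : Γ → ℝ) : ‖fc F a‖ₑ = N (cut F a) := by
  classical
  apply le_antisymm
  · refine enorm_le_of_ev _ _ (fun v => ?_)
    rw [ev_fc]
    refine (enorm_sum_le _ _).trans ?_
    simp only [enorm_mul]
    exact v.2 F a
  · refine FJ.tn_le (fun z hz => ?_)
    choose s hsF hsc hsq using fun n => q_cut_attained n F a
    let u : Γ → ℝ≥0∞ := fun γ => ∑' n, z n * ((2⁻¹ : ℝ≥0∞) ^ (n + 1) * if γ ∈ s n then 1 else 0)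
    have hu1 : ∀ γ, u γ ≤ 1 := by
      intro γ
      calc u γ ≤ ∑' n, (2⁻¹ : ℝ≥0∞) ^ (n + 1) := by
            refine ENNReal.tsum_le_tsum (fun n => ?_)
            calc z n * ((2⁻¹ : ℝ≥0∞) ^ (n + 1) * if γ ∈ s n then 1 else 0)
                ≤ 1 * ((2⁻¹ : ℝ≥0∞) ^ (n + 1) * 1) := by
                  gcongr
                  · exact FJ.B_le_one hz n
                  · split_ifs <;> simp
              _ = _ := by ring
        _ = 1 := tsum_half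
    have hut : ∀ γ, u γ ≠ ⊤ := fun γ => ne_top_of_le_ne_top (by simp) (hu1 γ)
    let v : Γ → ℝ := fun γ => (u γ).toReal * SignType.sign (a γ)
    have hve : ∀ γ, ‖v γ‖ₑ ≤ u γ := by
      intro γ
      simp only [v, enorm_mul]
      calc ‖(u γ).toReal‖ₑ * ‖((SignType.sign (a γ) : SignType) : ℝ)‖ₑ ≤ u γ * 1 := by
            gcongr
            · rw [Real.enorm_eq_ofReal ENNReal.toReal_nonneg, ENNReal.ofReal_toReal (hut γ)]
            · rw [Real.enorm_eq_ofReal_abs, ENNReal.ofReal_le_one]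
              rcases lt_trichotomy (a γ) 0 with h | h | h <;> simp [h]
        _ = u γ := mul_one _
    have hswap : ∀ (G : Finset Γ) (b : Γ → ℝ), ∑ γ ∈ G, ‖b γ‖ₑ * u γ
        = ∑' n, z n * ((2⁻¹ : ℝ≥0∞) ^ (n + 1) * ∑ γ ∈ G ∩ s n, ‖b γ‖ₑ) := by
      intro G b
      have h1 : ∀ γ ∈ G, ‖b γ‖ₑ * u γ
          = ∑' n, z n * ((2⁻¹ : ℝ≥0∞) ^ (n + 1) * if γ ∈ s n then ‖b γ‖ₑ else 0) := by
        intro γ _
        simp only [u]
        rw [← ENNReal.tsum_mul_left]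
        congr 1; funext n
        split_ifs <;> ring
      rw [Finset.sum_congr rfl h1, ← Summable.tsum_finsetSum (fun _ _ => ENNReal.summable)]
      congr 1; funext n
      rw [← Finset.mul_sum, ← Finset.mul_sum]
      congr 2
      rw [← Finset.sum_filter, Finset.filter_mem_eq_inter]
    have hv : v ∈ longV Γ := by
      intro G b
      calc ∑ γ ∈ G, ‖b γ‖ₑ * ‖v γ‖ₑ ≤ ∑ γ ∈ G, ‖b γ‖ₑ * u γ := by
            gcongr with γ; exact hve γ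
        _ = ∑' n, z n * ((2⁻¹ : ℝ≥0∞) ^ (n + 1) * ∑ γ ∈ G ∩ s n, ‖b γ‖ₑ) := hswap G b
        _ ≤ FJ.pair z (fun n => q n (cut G b)) := by
            refine ENNReal.tsum_le_tsum (fun n => ?_)
            gcongr
            have h1 : ∑ γ ∈ G ∩ s n, ‖b γ‖ₑ = ∑ γ ∈ G ∩ s n, ‖cut G b γ‖ₑ := by
              refine Finset.sum_congr rfl (fun γ hγ => ?_)
              simp [cut, (Finset.mem_inter.mp hγ).1]
            rw [h1]
            exact le_q n _ _ ((Finset.card_le_card Finset.inter_subset_right).trans (hsc n))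
        _ ≤ N (cut G b) := FJ.le_tn hz _
    have hev : ‖(longFam Γ).ev ⟨v, hv⟩ (fc F a)‖ₑ = FJ.pair z (fun n => q n (cut F a)) := by
      rw [ev_fc]
      have h1 : ∑ γ ∈ F, a γ * v γ = ∑ γ ∈ F, |a γ| * (u γ).toReal := by
        refine Finset.sum_congr rfl (fun γ _ => ?_)
        simp only [v]
        rcases lt_trichotomy (a γ) 0 with h | h | h
        · simp [h, abs_of_neg h]
        · simp [h]
        · simp [h, abs_of_pos h]
      show ‖∑ γ ∈ F, a γ * v γ‖ₑ = _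
      rw [h1, Real.enorm_eq_ofReal (Finset.sum_nonneg (fun γ _ => by positivity)),
        ENNReal.ofReal_sum_of_nonneg (fun γ _ => by positivity)]
      have h2 : ∀ γ ∈ F, ENNReal.ofReal (|a γ| * (u γ).toReal) = ‖a γ‖ₑ * u γ := by
        intro γ _
        rw [ENNReal.ofReal_mul (abs_nonneg _), ENNReal.ofReal_toReal (hut γ), Real.enorm_eq_ofReal_abs]
      rw [Finset.sum_congr rfl h2, hswap F a]
      unfold FJ.pair
      congr 1; funext n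
      dsimp only
      rw [hsq n, Finset.inter_eq_right.mpr (hsF n)]
    rw [← hev]
    exact enorm_ev_le _ _

end Pool.Agent.H69.Long
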