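import Pool.Agent.H69.Long

set_option autoImplicit false
open Filter Topology
open scoped ENNReal

namespace Pool.Agent.H69.Long

variable {Γ : Type}

lemma cut_mono {F G : Finset Γ} (h : F ⊆ G) (y : Γ → ℝ) (γ : Γ) : ‖cut F y γ‖ₑ ≤ ‖cut G y γ‖ₑ := by
  unfold cut
  by_cases h1 : γ ∈ F
  · simp [h1, h h1]
  · simp [h1]

/-- lower semicontinuity of the norm -/
lemma N_le_of_cut (y : Γ → ℝ) (C : ℝ≥0∞) (h : ∀ F : Finset Γ, N (cut F y) ≤ C) : N y ≤ C := by
  classical
  refine FJ.tn_le (fun z hz => ?_)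
  unfold FJ.pair
  rw [ENNReal.tsum_eq_iSup_sum]
  refine iSup_le (fun A => ?_)
  -- choose near-optimal sets
  have hq : ∀ n, q n y = ⨆ F : Finset Γ, q n (cut F y) := by
    intro n
    apply le_antisymm
    · refine q_le (fun s hs => ?_)
      refine le_trans ?_ (le_iSup (fun F : Finset Γ => q n (cut F y)) s)
      have h1 : ∑ γ ∈ s, ‖y γ‖ₑ = ∑ γ ∈ s, ‖cut s y γ‖ₑ := by
        refine Finset.sum_congr rfl (fun γ hγ => ?_)
        simp [cut, hγ]
      rw [h1]
      exact le_q n _ s hs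
    · exact iSup_le (fun F => q_mono n (cut_enorm_le F y))
  have hmono : ∀ n, Monotone (fun F : Finset Γ => z n * q n (cut F y)) := by
    intro n F G hFG
    dsimp only
    gcongr
    exact q_mono n (cut_mono hFG y)
  calc ∑ n ∈ A, z n * q n y = ∑ n ∈ A, ⨆ F : Finset Γ, z n * q n (cut F y) := by
        refine Finset.sum_congr rfl (fun n _ => ?_)
        rw [hq n, ENNReal.mul_iSup]
    _ = ⨆ F : Finset Γ, ∑ n ∈ A, z n * q n (cut F y) :=
        ENNReal.finsetSum_iSup_of_monotone hmono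
    _ ≤ C := by
        refine iSup_le (fun F => ?_)
        refine le_trans (ENNReal.sum_le_tsum A) ?_
        exact (FJ.le_tn hz _).trans (h F)

/-- vectors of finite norm have finite level sets -/
lemma finite_level (y : Γ → ℝ) (hy : N y ≠ ⊤) (θ : ℝ) (hθ : 0 < θ) : {γ | θ ≤ |y γ|}.Finite := by
  by_contra hinf
  have hinf' : {γ | θ ≤ |y γ|}.Infinite := hinf
  have h1 : ∀ n : ℕ, (2 : ℝ≥0∞) ^ n * (ENNReal.ofReal θ / 2) ≤ N y := by
    intro n
    obtain ⟨s, hs, hcard⟩ := hinf'.exists_subset_card_eq (4 ^ n)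
    refine le_trans ?_ (FJ.coord_le_tn (fun n => q n y) n)
    refine le_trans ?_ (le_q n y s hcard.le)
    calc (2 : ℝ≥0∞) ^ n * (ENNReal.ofReal θ / 2)
        = (2⁻¹ : ℝ≥0∞) ^ (n + 1) * (4 ^ n * ENNReal.ofReal θ) := by
          have h4 : (4 : ℝ≥0∞) ^ n = 2 ^ n * 2 ^ n := by
            rw [← mul_pow]; norm_num
          rw [h4, pow_succ, ENNReal.div_eq_inv_mul]
          calc (2 : ℝ≥0∞) ^ n * (2⁻¹ * ENNReal.ofReal θ)
              = 1 ^ n * 2 ^ n * (2⁻¹ * ENNReal.ofReal θ) := by rw [one_pow, one_mul]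
            _ = (2⁻¹ * 2) ^ n * 2 ^ n * (2⁻¹ * ENNReal.ofReal θ) := by
                rw [ENNReal.inv_mul_cancel (by norm_num) (by norm_num)]
            _ = _ := by rw [mul_pow]; ring
      _ = (2⁻¹ : ℝ≥0∞) ^ (n + 1) * ∑ γ ∈ s, ENNReal.ofReal θ := by
          simp [hcard]
      _ ≤ (2⁻¹ : ℝ≥0∞) ^ (n + 1) * ∑ γ ∈ s, ‖y γ‖ₑ := by
          gcongr with γ hγ
          rw [Real.enorm_eq_ofReal_abs]
          exact ENNReal.ofReal_le_ofReal (hs hγ)
  have h2 : Tendsto (fun n : ℕ => (2 : ℝ≥0∞) ^ n * (ENNReal.ofReal θ / 2)) atTop (𝓝 ⊤) := by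
    have h3 : Tendsto (fun n : ℕ => (2 : ℝ≥0∞) ^ n) atTop (𝓝 ⊤) :=
      ENNReal.tendsto_pow_atTop_nhds_top_iff.mpr (by norm_num)
    have h4 : ENNReal.ofReal θ / 2 ≠ 0 := by
      simp [hθ]
    have := ENNReal.Tendsto.mul_const (b := ENNReal.ofReal θ / 2) h3 (Or.inl (by simp))
    rwa [ENNReal.top_mul h4] at this
  have h3 : (⊤ : ℝ≥0∞) ≤ N y := le_of_tendsto' h2 h1
  exact hy (top_le_iff.mp h3)

/-- tails of a function of finite norm are small -/
theorem tails (y : Γ → ℝ) (hy : N y ≠ ⊤) (ε : ℝ≥0∞) (hε : ε ≠ 0) (hεt : ε ≠ ⊤) :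
    ∃ F0 : Finset Γ, ∀ F : Finset Γ, Disjoint F F0 → N (cut F y) ≤ ε := by
  classical
  obtain ⟨M, hM⟩ := FJ.tail_small (fun n => q n y) hy (ε / 2) (by simp [hε])
  -- choose the level
  set θ : ℝ := (ε.toReal / 2) / (M * 2 ^ M + 1) with hθ
  have hεr : 0 < ε.toReal := ENNReal.toReal_pos hε hεt
  have hθpos : 0 < θ := by positivity
  have hfin := finite_level y hy θ hθpos
  refine ⟨hfin.toFinset, fun F hF => ?_⟩
  have hsup : ∀ γ, ‖cut F y γ‖ₑ ≤ ENNReal.ofReal θ := by
    intro γ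
    by_cases h : γ ∈ F
    · have h1 : γ ∉ hfin.toFinset := Finset.disjoint_left.mp hF h
      have h2 : |y γ| < θ := by
        simpa using h1
      simp only [cut, h, if_true]
      rw [Real.enorm_eq_ofReal_abs]
      exact ENNReal.ofReal_le_ofReal h2.le
    · simp [cut, h]
  refine FJ.tn_le (fun z hz => ?_)
  have hsplit : ∀ n, z n * q n (cut F y) ≤
      (if n < M then (2 : ℝ≥0∞) ^ M * ENNReal.ofReal θ else 0)
        + z n * ({n | M ≤ n}.indicator (fun n => q n y)) n := by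
    intro n
    by_cases hn : n < M
    · rw [if_pos hn]
      refine le_trans ?_ le_self_add
      calc z n * q n (cut F y) ≤ 1 * (2 ^ n * ENNReal.ofReal θ) := by
            gcongr
            · exact FJ.B_le_one hz n
            · exact q_le_of_le n _ _ hsup
        _ ≤ 2 ^ M * ENNReal.ofReal θ := by
            rw [one_mul]
            gcongr
            · norm_num
    · rw [if_neg hn, zero_add]
      rw [Set.indicator_of_mem (show n ∈ {n | M ≤ n} from not_lt.mp hn)]
      gcongr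
      exact q_mono n (cut_enorm_le F y)
  calc FJ.pair z (fun n => q n (cut F y)) ≤
      ∑' n, ((if n < M then (2 : ℝ≥0∞) ^ M * ENNReal.ofReal θ else 0)
        + z n * ({n | M ≤ n}.indicator (fun n => q n y)) n) := ENNReal.tsum_le_tsum hsplit
    _ = (∑' n, (if n < M then (2 : ℝ≥0∞) ^ M * ENNReal.ofReal θ else 0))
        + FJ.pair z ({n | M ≤ n}.indicator (fun n => q n y)) := ENNReal.tsum_add
    _ ≤ ε / 2 + ε / 2 := by
        gcongr
        · rw [tsum_eq_sum (s := Finset.range M) (by intro n hn; simp at hn; simp [hn])]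
          rw [Finset.sum_congr rfl (fun n hn => if_pos (Finset.mem_range.mp hn))]
          simp only [Finset.sum_const, Finset.card_range, nsmul_eq_mul]
          have h1 : (M : ℝ≥0∞) * (2 ^ M * ENNReal.ofReal θ) = ENNReal.ofReal (M * (2 ^ M * θ)) := by
            rw [ENNReal.ofReal_mul (by positivity), ENNReal.ofReal_mul (by positivity)]
            rw [ENNReal.ofReal_natCast, ENNReal.ofReal_pow (by norm_num)]
            norm_num
          rw [h1]
          have h2 : ε / 2 = ENNReal.ofReal (ε.toReal / 2) := by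
            rw [ENNReal.ofReal_div_of_pos (by norm_num), ENNReal.ofReal_toReal hεt]
            norm_num
          rw [h2]
          apply ENNReal.ofReal_le_ofReal
          rw [hθ]
          rw [show (M : ℝ) * (2 ^ M * (ε.toReal / 2 / (M * 2 ^ M + 1))) = (ε.toReal / 2) * ((M * 2 ^ M) / (M * 2 ^ M + 1)) by ring]
          have h3 : ((M : ℝ) * 2 ^ M) / (M * 2 ^ M + 1) ≤ 1 := by
            rw [div_le_one (by positivity)]; linarith
          nlinarith
        · exact (FJ.le_tn hz _).trans hM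
    _ = ε := ENNReal.add_halves ε

/-- bounded completeness -/
theorem bdd_complete (y : Γ → ℝ) (hy : ∃ C : ℝ, ∀ F : Finset Γ, ‖fc F y‖ ≤ C) :
    Summable (fun γ => y γ • (longFam Γ).e γ) := by
  obtain ⟨C, hC⟩ := hy
  have h1 : N y ≤ ENNReal.ofReal C := by
    refine N_le_of_cut y _ (fun F => ?_)
    rw [← enorm_fc, ← ofReal_norm]
    exact ENNReal.ofReal_le_ofReal (hC F)
  have h2 : N y ≠ ⊤ := ne_top_of_le_ne_top ENNReal.ofReal_ne_top h1
  rw [summable_iff_vanishing_norm]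
  intro ε hε
  obtain ⟨F0, hF0⟩ := tails y h2 (ENNReal.ofReal (ε / 2)) (by simp [hε]) ENNReal.ofReal_ne_top
  refine ⟨F0, fun F hF => ?_⟩
  have h3 := hF0 F hF
  rw [← enorm_fc, ← ofReal_norm, ENNReal.ofReal_le_ofReal_iff (by positivity)] at h3
  have h4 : ‖fc F y‖ ≤ ε / 2 := h3
  show ‖fc F y‖ < ε
  linarith

end Pool.Agent.H69.Long
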