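import Pool.Agent.H69.LongBC

set_option autoImplicit false
open Filter Topology
open scoped ENNReal

namespace Pool.Agent.H69.Long

variable {Γ : Type}

/-- `k` vectors which are almost successive blocks of the outer space, after `k` -/
structure AlmostBlocks (k : ℕ) (ε : ℝ≥0∞) (y : Fin k → Γ → ℝ) where
  W : Fin k → Set ℕ
  hN : ∀ j, N (y j) ≤ 1
  hW : ∀ j n, n ∈ W j → k ≤ n
  hord : ∀ i j, i < j → ∀ n m, n ∈ W i → m ∈ W j → n < m
  hout : ∀ j, ∑' n, (W j)ᶜ.indicator (fun n => q n (y j)) n ≤ ε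

lemma split_ind (S : Set ℕ) (f : ℕ → ℝ≥0∞) (n : ℕ) : f n = S.indicator f n + Sᶜ.indicator f n := by
  by_cases h : n ∈ S <;> simp [h]

lemma AlmostBlocks.upper {k : ℕ} {ε : ℝ≥0∞} {y : Fin k → Γ → ℝ} (A : AlmostBlocks k ε y)
    (c : Fin k → ℝ) (hc : ∀ j, ‖c j‖ₑ ≤ 1) : N (fun γ => ∑ j, c j * y j γ) ≤ 2 + k * ε := by
  have h1 : ∀ n, q n (fun γ => ∑ j, c j * y j γ) ≤
      (∑ j, (A.W j).indicator (fun n => q n (y j)) n)
        + ∑ j, (A.W j)ᶜ.indicator (fun n => q n (y j)) n := by
    intro n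
    calc q n (fun γ => ∑ j, c j * y j γ) ≤ ∑ j, q n (fun γ => c j * y j γ) :=
          q_sum n Finset.univ (fun j γ => c j * y j γ)
      _ ≤ ∑ j, q n (y j) := by
          gcongr with j
          rw [q_smul]
          calc ‖c j‖ₑ * q n (y j) ≤ 1 * q n (y j) := by gcongr; exact hc j
            _ = _ := one_mul _
      _ = _ := by
          rw [← Finset.sum_add_distrib]
          refine Finset.sum_congr rfl (fun j _ => ?_)
          exact split_ind (A.W j) (fun n => q n (y j)) n
  refine (FJ.tn_mono h1).trans ((FJ.tn_add_le _ _).trans ?_)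
  gcongr
  · have h2 := FJ.tn_blocks k (fun j => (A.W j).indicator (fun n => q n (y j))) 1 (fun j => by
      refine le_trans (FJ.tn_mono (fun n => Set.indicator_le_self _ _ n)) (A.hN j))
      (fun i n h => by
        by_contra hne
        apply h
        rw [Set.indicator_of_notMem]
        intro hmem
        exact hne (A.hW i n hmem))
      (fun i j hij n m hn hm => by
        have h3 : n ∈ A.W i := by
          by_contra hne; exact hn (Set.indicator_of_notMem hne _)
        have h4 : m ∈ A.W j := by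
          by_contra hne; exact hm (Set.indicator_of_notMem hne _)
        exact A.hord i j hij n m h3 h4)
    rwa [mul_one] at h2
  · refine (FJ.tn_le_tsum _).trans ?_
    rw [Summable.tsum_finsetSum (fun _ _ => ENNReal.summable)]
    calc ∑ j, ∑' n, (A.W j)ᶜ.indicator (fun n => q n (y j)) n ≤ ∑ _j : Fin k, ε :=
          Finset.sum_le_sum (fun j _ => A.hout j)
      _ = k * ε := by simp

lemma AlmostBlocks.lower {k : ℕ} {ε : ℝ≥0∞} {y : Fin k → Γ → ℝ} (A : AlmostBlocks k ε y)
    (c : Fin k → ℝ) (hc : ∀ j, ‖c j‖ₑ ≤ 1) (i : Fin k) :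
    ‖c i‖ₑ * N (y i) ≤ N (fun γ => ∑ j, c j * y j γ) + k * ε := by
  classical
  have h0 : ‖c i‖ₑ * N (y i) = FJ.tn (fun n => q n (fun γ => c i * y i γ)) := by
    simp only [q_smul]
    unfold N FJ.tn
    simp only [ENNReal.mul_iSup, FJ.pair_const_right]
  rw [h0]
  refine FJ.tn_le (fun z hz => ?_)
  have hdisj : ∀ j, j ≠ i → ∀ n ∈ A.W i, n ∈ (A.W j)ᶜ := by
    intro j hj n hn hn'
    rcases lt_or_gt_of_ne hj with h | h
    · exact lt_irrefl _ (A.hord j i h n n hn' hn)
    · exact lt_irrefl _ (A.hord i j h n n hn hn')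
  have h1 : ∀ n, q n (fun γ => c i * y i γ) ≤ q n (fun γ => ∑ j, c j * y j γ)
      + ∑ j, (A.W j)ᶜ.indicator (fun n => q n (y j)) n := by
    intro n
    have hqc : ∀ j, q n (fun γ => c j * y j γ) ≤ q n (y j) := by
      intro j
      rw [q_smul]
      calc ‖c j‖ₑ * q n (y j) ≤ 1 * q n (y j) := by gcongr; exact hc j
        _ = _ := one_mul _
    by_cases hn : n ∈ A.W i
    · have h2 : (fun γ => c i * y i γ) = fun γ => (∑ j, c j * y j γ)
          + ∑ j ∈ Finset.univ.erase i, (-1) * (c j * y j γ) := by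
        funext γ
        rw [← Finset.mul_sum, ← Finset.add_sum_erase _ _ (Finset.mem_univ i)]
        ring
      rw [h2]
      refine (q_add n _ _).trans ?_
      gcongr
      calc q n (fun γ => ∑ j ∈ Finset.univ.erase i, (-1) * (c j * y j γ))
          ≤ ∑ j ∈ Finset.univ.erase i, q n (fun γ => (-1) * (c j * y j γ)) :=
            q_sum n _ (fun j γ => (-1) * (c j * y j γ))
        _ ≤ ∑ j ∈ Finset.univ.erase i, (A.W j)ᶜ.indicator (fun n => q n (y j)) n := by
            refine Finset.sum_le_sum (fun j hj => ?_)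
            rw [Set.indicator_of_mem (hdisj j (Finset.ne_of_mem_erase hj) n hn)]
            rw [q_smul]
            simpa using hqc j
        _ ≤ ∑ j, (A.W j)ᶜ.indicator (fun n => q n (y j)) n :=
            Finset.sum_le_sum_of_subset (Finset.erase_subset _ _)
    · refine le_trans ?_ le_add_self
      calc q n (fun γ => c i * y i γ) ≤ q n (y i) := hqc i
        _ = (A.W i)ᶜ.indicator (fun n => q n (y i)) n := by
            rw [Set.indicator_of_mem (show n ∈ (A.W i)ᶜ from hn)]
        _ ≤ ∑ j, (A.W j)ᶜ.indicator (fun n => q n (y j)) n :=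
            Finset.single_le_sum (f := fun j => (A.W j)ᶜ.indicator (fun n => q n (y j)) n)
              (fun _ _ => zero_le) (Finset.mem_univ i)
  calc FJ.pair z (fun n => q n (fun γ => c i * y i γ))
      ≤ FJ.pair z (fun n => q n (fun γ => ∑ j, c j * y j γ)
          + ∑ j, (A.W j)ᶜ.indicator (fun n => q n (y j)) n) :=
        FJ.pair_mono (fun _ => le_rfl) h1
    _ = FJ.pair z (fun n => q n (fun γ => ∑ j, c j * y j γ))
        + FJ.pair z (fun n => ∑ j, (A.W j)ᶜ.indicator (fun n => q n (y j)) n) :=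
        FJ.pair_add_right _ _ _
    _ ≤ N (fun γ => ∑ j, c j * y j γ) + k * ε := by
        gcongr
        · exact FJ.le_tn hz _
        · refine (FJ.le_tn hz _).trans ((FJ.tn_le_tsum _).trans ?_)
          rw [Summable.tsum_finsetSum (fun _ _ => ENNReal.summable)]
          calc ∑ j, ∑' n, (A.W j)ᶜ.indicator (fun n => q n (y j)) n ≤ ∑ _j : Fin k, ε :=
                Finset.sum_le_sum (fun j _ => A.hout j)
            _ = k * ε := by simp

/-- one step of the gliding hump in the outer space -/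
lemma glide_step (P : Finset Γ → (Γ → ℝ) → Prop)
    (hP : ∀ δ : ℝ≥0∞, δ ≠ 0 → ∃ F a, P F a ∧ N (cut F a) ≤ 1 ∧ ∀ γ, ‖cut F a γ‖ₑ ≤ δ)
    (ε : ℝ≥0∞) (hε : ε ≠ 0) (hεt : ε ≠ ⊤) (M : ℕ) :
    ∃ p : (Finset Γ × (Γ → ℝ)) × ℕ, M < p.2 ∧ P p.1.1 p.1.2 ∧ N (cut p.1.1 p.1.2) ≤ 1 ∧
      ∑' n, ({n | M ≤ n ∧ n < p.2}ᶜ).indicator (fun n => q n (cut p.1.1 p.1.2)) n ≤ ε := by
  obtain ⟨F, a, h1, h2, h3⟩ := hP ((ε / 2) / (M * 2 ^ M + 1)) (by
    simp only [ne_eq, ENNReal.div_eq_zero_iff, not_or]
    refine ⟨⟨hε, by norm_num⟩, ?_⟩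
    finiteness)
  have hsum : ∑' n, q n (cut F a) ≠ ⊤ := by
    have : ∑' n, q n (cut F a) ≤ ∑ γ ∈ F, ‖a γ‖ₑ := by
      calc ∑' n, q n (cut F a) ≤ ∑' n, (2⁻¹ : ℝ≥0∞) ^ (n + 1) * ∑ γ ∈ F, ‖a γ‖ₑ :=
            ENNReal.tsum_le_tsum (fun n => q_cut_le n F a)
        _ = ∑ γ ∈ F, ‖a γ‖ₑ := by rw [ENNReal.tsum_mul_right, tsum_half, one_mul]
    refine ne_top_of_le_ne_top ?_ this
    exact (ENNReal.sum_lt_top.mpr (fun γ _ => enorm_lt_top)).ne
  have h4 := ENNReal.tendsto_sum_nat_add (fun n => q n (cut F a)) hsum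
  rw [ENNReal.tendsto_atTop_zero] at h4
  obtain ⟨K, hK⟩ := h4 (ε / 2) (ENNReal.half_pos hε)
  set M' := max K (M + 1) with hM'
  refine ⟨((F, a), M'), lt_of_lt_of_le (Nat.lt_succ_self M) (le_max_right _ _), h1, h2, ?_⟩
  have hKM := hK M' (le_max_left _ _)
  have hpt : ∀ n, ({n | M ≤ n ∧ n < M'}ᶜ).indicator (fun n => q n (cut F a)) n ≤
      (if n < M then (2 : ℝ≥0∞) ^ M * ((ε / 2) / (M * 2 ^ M + 1)) else 0)
        + ({n | M' ≤ n}).indicator (fun n => q n (cut F a)) n := by
    intro n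
    by_cases hn : n < M
    · rw [if_pos hn, Set.indicator_of_mem (show n ∈ {n | M ≤ n ∧ n < M'}ᶜ by
        simp only [Set.mem_compl_iff, Set.mem_ofPred_eq]; omega)]
      refine le_trans ?_ le_self_add
      refine (q_le_of_le n _ _ h3).trans ?_
      gcongr
      norm_num
    · by_cases hn' : n < M'
      · rw [Set.indicator_of_notMem (show n ∉ {n | M ≤ n ∧ n < M'}ᶜ by
          simp only [Set.mem_compl_iff, Set.mem_ofPred_eq, not_not]; omega)]
        exact zero_le
      · rw [if_neg hn, zero_add, Set.indicator_of_mem (show n ∈ {n | M' ≤ n} from not_lt.mp hn')]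
        exact Set.indicator_le_self _ _ n
  calc ∑' n, ({n | M ≤ n ∧ n < M'}ᶜ).indicator (fun n => q n (cut F a)) n
      ≤ ∑' n, ((if n < M then (2 : ℝ≥0∞) ^ M * ((ε / 2) / (M * 2 ^ M + 1)) else 0)
        + ({n | M' ≤ n}).indicator (fun n => q n (cut F a)) n) := ENNReal.tsum_le_tsum hpt
    _ = (∑' n, (if n < M then (2 : ℝ≥0∞) ^ M * ((ε / 2) / (M * 2 ^ M + 1)) else 0))
        + ∑' n, ({n | M' ≤ n}).indicator (fun n => q n (cut F a)) n := ENNReal.tsum_add
    _ ≤ ε / 2 + ε / 2 := by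
        gcongr
        · rw [tsum_eq_sum (s := Finset.range M) (by intro n hn; simp at hn; simp [hn])]
          rw [Finset.sum_congr rfl (fun n hn => if_pos (Finset.mem_range.mp hn))]
          simp only [Finset.sum_const, Finset.card_range, nsmul_eq_mul]
          calc (M : ℝ≥0∞) * (2 ^ M * (ε / 2 / (M * 2 ^ M + 1)))
              = (M * 2 ^ M) * (ε / 2 / (M * 2 ^ M + 1)) := by ring
            _ ≤ (M * 2 ^ M + 1) * (ε / 2 / (M * 2 ^ M + 1)) := by
                gcongr; exact le_self_add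
            _ = ε / 2 := by
                rw [ENNReal.mul_div_cancel (by simp) (by finiteness)]
        · refine le_trans (le_of_eq ?_) hKM
          have hinj := (add_left_injective M').tsum_eq
            (f := ({n | M' ≤ n}).indicator (fun n => q n (cut F a))) (by
              intro n hn
              have : M' ≤ n := by
                by_contra hne
                exact hn (Set.indicator_of_notMem hne _)
              exact ⟨n - M', by simp only; omega⟩)
          rw [← hinj]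
          congr 1
          funext n
          exact Set.indicator_of_mem (show n + M' ∈ {n | M' ≤ n} from Nat.le_add_left _ _) _
    _ = ε := ENNReal.add_halves ε

end Pool.Agent.H69.Long
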