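import Pool.Agent.H69.LongSub

set_option autoImplicit false
open Filter Topology
open scoped ENNReal ZeroAtInfty

namespace Pool.Agent.H69.Long

variable {Γ : Type}

/-- sup-type finite systems in infinite dimensional subspaces -/
theorem exists_sup_system (Y : Submodule ℝ (longFam Γ).X) (hY : ¬ FiniteDimensional ℝ Y) (k : ℕ) :
    ∃ y : Fin k → (longFam Γ).X, (∀ j, y j ∈ Y) ∧ ∀ c : Fin k → ℝ, (∀ j, |c j| ≤ 1) →
      (‖∑ j, c j • y j‖ ≤ 4 ∧ ((∃ i, |c i| = 1) → 1 / 2 ≤ ‖∑ j, c j • y j‖)) := by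
  classical
  set ε : ℝ := 1 / (8 * (k + 1)) with hε
  have hεpos : 0 < ε := by positivity
  have hkε : (k : ℝ) * ε ≤ 1 / 8 := by
    rw [hε, mul_one_div, div_le_div_iff₀ (by positivity) (by norm_num)]
    linarith
  have hε8 : ε ≤ 1 / 8 := by
    rw [hε]
    apply one_div_le_one_div_of_le (by norm_num)
    have : (0 : ℝ) ≤ k := Nat.cast_nonneg k
    linarith
  obtain ⟨F, a, hFa, ⟨A⟩⟩ := exists_almostBlocks
    (fun F a => ∃ y ∈ Y, ‖y - fc F a‖ ≤ ε ∧ 7 / 8 ≤ ‖fc F a‖) (by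
    intro δ hδ
    obtain ⟨δ', hδ'0, hδ'⟩ : ∃ δ' : ℝ, 0 < δ' ∧ ENNReal.ofReal δ' ≤ δ := by
      by_cases h : δ = ⊤
      · exact ⟨1, one_pos, by rw [h]; exact le_top⟩
      · exact ⟨δ.toReal, ENNReal.toReal_pos hδ h, by rw [ENNReal.ofReal_toReal h]⟩
    obtain ⟨y, hyY, hy1, hyc⟩ := small_sup Y hY δ' hδ'0
    obtain ⟨F0, hF0⟩ := (longFam Γ).exists_P y ε hεpos
    have h1 := hF0 F0 (Finset.Subset.refl _)
    refine ⟨F0, fun γ => (longFam Γ).co γ y, ⟨y, hyY, ?_, ?_⟩, ?_, ?_⟩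
    · rw [fc_eq_P]; exact h1
    · rw [fc_eq_P]
      have h2 : ‖y‖ ≤ ‖y - (longFam Γ).P F0 y‖ + ‖(longFam Γ).P F0 y‖ := by
        have := norm_add_le (y - (longFam Γ).P F0 y) ((longFam Γ).P F0 y)
        rwa [sub_add_cancel] at this
      rw [hy1] at h2
      linarith
    · rw [← enorm_fc, fc_eq_P, ← ofReal_norm, ENNReal.ofReal_le_one]
      exact ((longFam Γ).norm_P_le _ _).trans hy1.le
    · intro γ
      refine (cut_enorm_le _ _ γ).trans (le_trans ?_ hδ')
      rw [Real.enorm_eq_ofReal_abs]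
      exact ENNReal.ofReal_le_ofReal (hyc γ)) k (ENNReal.ofReal ε) (by simp [hεpos]) ENNReal.ofReal_ne_top
  choose y hyY hyd hyn using hFa
  refine ⟨y, hyY, fun c hc => ?_⟩
  have hce : ∀ j, ‖c j‖ₑ ≤ 1 := fun j => by
    rw [Real.enorm_eq_ofReal_abs, ENNReal.ofReal_le_one]; exact hc j
  have hdiff : ‖∑ j, c j • y j - ∑ j, c j • fc (F j) (a j)‖ ≤ 1 / 8 := by
    rw [← Finset.sum_sub_distrib]
    calc ‖∑ j, (c j • y j - c j • fc (F j) (a j))‖ ≤ ∑ j, ‖c j • y j - c j • fc (F j) (a j)‖ :=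
          norm_sum_le _ _
      _ ≤ ∑ _j : Fin k, ε := by
          refine Finset.sum_le_sum (fun j _ => ?_)
          rw [← smul_sub, norm_smul, Real.norm_eq_abs]
          calc |c j| * ‖y j - fc (F j) (a j)‖ ≤ 1 * ε := by
                gcongr
                · exact hc j
                · exact hyd j
            _ = ε := one_mul _
      _ = k * ε := by simp
      _ ≤ 1 / 8 := hkε
  have hconv : (k : ℝ≥0∞) * ENNReal.ofReal ε = ENNReal.ofReal (k * ε) := by
    rw [ENNReal.ofReal_mul (by positivity), ENNReal.ofReal_natCast]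
  constructor
  · have h1 := A.upper c hce
    rw [← sum_smul_fc, hconv] at h1
    have h2 : ‖∑ j, c j • fc (F j) (a j)‖ ≤ 2 + k * ε := by
      have h3 : (2 : ℝ≥0∞) + ENNReal.ofReal (k * ε) = ENNReal.ofReal (2 + k * ε) := by
        rw [ENNReal.ofReal_add (by norm_num) (by positivity)]
        norm_num
      rw [h3, ← ofReal_norm, ENNReal.ofReal_le_ofReal_iff (by positivity)] at h1
      exact h1
    have h3 : ‖∑ j, c j • y j‖ ≤ ‖∑ j, c j • y j - ∑ j, c j • fc (F j) (a j)‖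
        + ‖∑ j, c j • fc (F j) (a j)‖ := by
      have := norm_add_le (∑ j, c j • y j - ∑ j, c j • fc (F j) (a j)) (∑ j, c j • fc (F j) (a j))
      rwa [sub_add_cancel] at this
    linarith
  · rintro ⟨i, hi⟩
    have h1 := A.lower c hce i
    have hci : ‖c i‖ₑ = 1 := by
      rw [Real.enorm_eq_ofReal_abs, hi]; simp
    rw [hci, one_mul, ← sum_smul_fc, ← enorm_fc, hconv, ← ofReal_norm, ← ofReal_norm,
      ← ENNReal.ofReal_add (norm_nonneg _) (by positivity),
      ENNReal.ofReal_le_ofReal_iff (by positivity)] at h1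
    have h2 := hyn i
    have h3 : ‖∑ j, c j • fc (F j) (a j)‖ ≤ ‖∑ j, c j • y j - ∑ j, c j • fc (F j) (a j)‖
        + ‖∑ j, c j • y j‖ := by
      have := norm_sub_le (∑ j, c j • y j) (∑ j, c j • y j - ∑ j, c j • fc (F j) (a j))
      rw [sub_sub_cancel] at this
      linarith
    linarith

/-- finite dimensional subspaces of c_0 are determined by finitely many coordinates -/
lemma exists_coords (E : Submodule ℝ (ℕ →C₀ ℝ)) [FiniteDimensional ℝ E] :
    ∃ k : ℕ, ∀ v : E, ∃ n : ℕ, (v ≠ 0 → n < k) ∧ ‖v‖ ≤ 2 * |(v : ℕ →C₀ ℝ) n| := by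
  classical
  have hcomp : IsCompact (Metric.sphere (0 : E) 1) := isCompact_sphere 0 1
  let U : ℕ → Set E := fun n => {v | 1 / 2 < |(v : ℕ →C₀ ℝ) n|}
  have hUo : ∀ n, IsOpen (U n) := by
    intro n
    have hcont : Continuous (fun v : E => |(v : ℕ →C₀ ℝ) n|) := by
      have h1 : Continuous (fun v : E => (v : ℕ →C₀ ℝ)) := continuous_subtype_val
      have h2 : Continuous (fun f : ℕ →C₀ ℝ => f n) := by
        rw [Metric.continuous_iff]
        intro f ε hε
        refine ⟨ε, hε, fun g hg => ?_⟩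
        refine lt_of_le_of_lt ?_ hg
        have := BoundedContinuousFunction.dist_coe_le_dist (f := g.toBCF) (g := f.toBCF) n
        exact this
      exact (h2.comp h1).abs
    exact isOpen_lt continuous_const hcont
  have hcov : Metric.sphere (0 : E) 1 ⊆ ⋃ n, U n := by
    intro v hv0
    have hv : dist (v : ℕ →C₀ ℝ) (0 : ℕ →C₀ ℝ) = 1 := hv0
    rw [dist_zero_right] at hv
    by_contra hne
    simp only [Set.mem_iUnion, not_exists, U, Set.mem_ofPred_eq, not_lt] at hne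
    have h1 : ‖(v : ℕ →C₀ ℝ)‖ ≤ 1 / 2 := by
      have : ‖(v : ℕ →C₀ ℝ).toBCF‖ ≤ 1 / 2 := by
        rw [BoundedContinuousFunction.norm_le (by norm_num)]
        intro n
        exact hne n
      exact this
    linarith
  obtain ⟨t, ht⟩ := hcomp.elim_finite_subcover U hUo hcov
  refine ⟨t.sup id + 1, fun v => ?_⟩
  by_cases hv : v = 0
  · exact ⟨0, fun h => absurd hv h, by rw [hv]; simp⟩
  · have hv' : (v : ℕ →C₀ ℝ) ≠ 0 := fun h => hv (Subtype.ext h)
    have hvpos : 0 < ‖v‖ := norm_pos_iff.mpr hv'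
    have hvn : ‖v‖ ≠ 0 := hvpos.ne'
    have h1 : ‖v‖⁻¹ • v ∈ Metric.sphere (0 : E) 1 := by
      have h0 : dist (‖v‖⁻¹ • (v : ℕ →C₀ ℝ)) (0 : ℕ →C₀ ℝ) = 1 := by
        rw [dist_zero_right, norm_smul, norm_inv, norm_norm]
        exact inv_mul_cancel₀ hvn
      exact h0
    have h2 := ht h1
    simp only [Set.mem_iUnion] at h2
    obtain ⟨n, hn, hn2⟩ := h2
    refine ⟨n, fun _ => Nat.lt_succ_of_le (Finset.le_sup (f := id) hn), ?_⟩
    have h3 : 1 / 2 < |((‖v‖⁻¹ • v : E) : ℕ →C₀ ℝ) n| := hn2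
    have h4 : ((‖v‖⁻¹ • v : E) : ℕ →C₀ ℝ) n = ‖v‖⁻¹ * (v : ℕ →C₀ ℝ) n := rfl
    rw [h4, abs_mul, abs_inv, abs_of_pos hvpos, ← div_eq_inv_mul, lt_div_iff₀ hvpos] at h3
    linarith

/-- c_0 is crudely finitely representable in every infinite dimensional subspace. -/
theorem c0_rep (Y : Submodule ℝ (longFam Γ).X) (hY : ¬ FiniteDimensional ℝ Y)
    (E : Submodule ℝ (ℕ →C₀ ℝ)) (hE : FiniteDimensional ℝ E) :
    ∃ T : E →ₗ[ℝ] (longFam Γ).X, (∀ v, T v ∈ Y) ∧ ∀ v : E, ‖v‖ ≤ ‖T v‖ ∧ ‖T v‖ ≤ 16 * ‖v‖ := by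
  classical
  obtain ⟨k, hk⟩ := exists_coords E
  obtain ⟨y, hyY, hy⟩ := exists_sup_system Y hY k
  let T : E →ₗ[ℝ] (longFam Γ).X :=
    { toFun := fun v => (4 : ℝ) • ∑ j : Fin k, ((v : ℕ →C₀ ℝ) j) • y j
      map_add' := by
        intro v w
        rw [← smul_add, ← Finset.sum_add_distrib]
        congr 1
        refine Finset.sum_congr rfl (fun j _ => ?_)
        rw [← add_smul]
        rfl
      map_smul' := by
        intro c v
        rw [RingHom.id_apply, smul_comm c (4 : ℝ), Finset.smul_sum (r := c)]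
        congr 1
        refine Finset.sum_congr rfl (fun j _ => ?_)
        rw [smul_smul]
        rfl }
  have hTv : ∀ v, T v = (4 : ℝ) • ∑ j : Fin k, ((v : ℕ →C₀ ℝ) j) • y j := fun v => rfl
  have habs : ∀ (v : E) (n : ℕ), |(v : ℕ →C₀ ℝ) n| ≤ ‖v‖ := by
    intro v n
    exact (v : ℕ →C₀ ℝ).toBCF.norm_coe_le_norm n
  refine ⟨T, fun v => ?_, fun v => ?_⟩
  · rw [hTv]
    exact Y.smul_mem _ (Y.sum_mem (fun j _ => Y.smul_mem _ (hyY j)))
  · by_cases hv : v = 0
    · rw [hv, map_zero]; simp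
    have hv' : (v : ℕ →C₀ ℝ) ≠ 0 := fun h => hv (Subtype.ext h)
    have hvpos : 0 < ‖v‖ := norm_pos_iff.mpr hv'
    obtain ⟨n, hnk, hn⟩ := hk v
    have hnk' := hnk hv
    -- the maximal coordinate
    obtain ⟨i, _, hi⟩ := Finset.exists_max_image (Finset.univ : Finset (Fin k))
      (fun j => |(v : ℕ →C₀ ℝ) j|) ⟨⟨n, hnk'⟩, Finset.mem_univ _⟩
    set s := |(v : ℕ →C₀ ℝ) i| with hs
    have hs1 : ‖v‖ ≤ 2 * s := hn.trans (by
      have := hi ⟨n, hnk'⟩ (Finset.mem_univ _)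
      simp only at this
      linarith)
    have hs2 : s ≤ ‖v‖ := habs v i
    have hspos : 0 < s := by linarith
    have h1 := hy (fun j => (v : ℕ →C₀ ℝ) j / s) (fun j => by
      rw [abs_div, abs_of_pos hspos, div_le_one hspos]
      exact hi j (Finset.mem_univ _))
    have h2 : ∑ j : Fin k, ((v : ℕ →C₀ ℝ) j / s) • y j = s⁻¹ • ∑ j : Fin k, ((v : ℕ →C₀ ℝ) j) • y j := by
      rw [Finset.smul_sum]
      refine Finset.sum_congr rfl (fun j _ => ?_)
      rw [smul_smul, div_eq_inv_mul]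
    rw [h2, norm_smul, norm_inv, Real.norm_eq_abs, abs_of_pos hspos, ← div_eq_inv_mul] at h1
    have h3 := h1.1
    have h4 := h1.2 ⟨i, by rw [abs_div, abs_of_pos hspos, div_self hspos.ne']⟩
    rw [div_le_iff₀ hspos] at h3
    rw [le_div_iff₀ hspos] at h4
    rw [hTv, norm_smul]
    have h5 : ‖(4 : ℝ)‖ = 4 := by norm_num
    rw [h5]
    constructor
    · linarith
    · nlinarith

/-- density character -/
lemma dense_card (D : Set (longFam ℝ).X) (hD : Dense D) : Cardinal.continuum ≤ Cardinal.mk D := by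
  have h1 : ∀ γ : ℝ, ∃ d ∈ D, ‖(longFam ℝ).e γ - d‖ < 1 / 4 := by
    intro γ
    obtain ⟨d, hd, h⟩ := Metric.mem_closure_iff.mp (hD ((longFam ℝ).e γ)) (1 / 4) (by norm_num)
    rw [dist_eq_norm] at h
    exact ⟨d, hd, h⟩
  choose d hd hdn using h1
  have hinj : Function.Injective (fun γ : ℝ => (⟨d γ, hd γ⟩ : D)) := by
    intro γ γ' h
    by_contra hne
    have h2 := (longFam ℝ).half_le_norm_e_sub γ γ' hne
    have h3 : d γ = d γ' := congrArg Subtype.val h
    have h4 := hdn γ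
    have h5 := hdn γ'
    rw [← h3] at h5
    have h6 : ‖(longFam ℝ).e γ - (longFam ℝ).e γ'‖ ≤ ‖(longFam ℝ).e γ - d γ‖ + ‖(longFam ℝ).e γ' - d γ‖ := by
      have := norm_sub_le ((longFam ℝ).e γ - d γ) ((longFam ℝ).e γ' - d γ)
      rwa [sub_sub_sub_cancel_right] at this
    linarith
  have := Cardinal.mk_le_of_injective hinj
  rwa [Cardinal.mk_real] at this

lemma exists_dense : ∃ D : Set (longFam ℝ).X, Dense D ∧ Cardinal.mk D = Cardinal.continuum := by
  refine ⟨Submodule.span ℝ (Set.range (longFam ℝ).e), (longFam ℝ).dense_span, ?_⟩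
  apply le_antisymm
  · have h1 : Function.Surjective (fun c : ℝ →₀ ℝ =>
        (⟨Finsupp.linearCombination ℝ (longFam ℝ).e c, by
          rw [← Finsupp.range_linearCombination]; exact ⟨c, rfl⟩⟩ :
          (Submodule.span ℝ (Set.range (longFam ℝ).e) : Set (longFam ℝ).X))) := by
      rintro ⟨x, hx⟩
      have hx' : x ∈ Submodule.span ℝ (Set.range (longFam ℝ).e) := hx
      rw [← Finsupp.range_linearCombination] at hx'
      obtain ⟨c, hc⟩ := hx'
      exact ⟨c, Subtype.ext hc⟩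
    have h2 := Cardinal.mk_le_of_surjective h1
    refine h2.trans ?_
    rw [Cardinal.mk_finsupp_of_infinite]
    simp [Cardinal.mk_real]
  · exact dense_card _ (longFam ℝ).dense_span

end Pool.Agent.H69.Long
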