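import Pool.Agent.H69.LongGlide

set_option autoImplicit false
open Filter Topology
open scoped ENNReal

namespace Pool.Agent.H69.Long

variable {Γ : Type}

/-- existence of almost successive blocks -/
theorem exists_almostBlocks (P : Finset Γ → (Γ → ℝ) → Prop)
    (hP : ∀ δ : ℝ≥0∞, δ ≠ 0 → ∃ F a, P F a ∧ N (cut F a) ≤ 1 ∧ ∀ γ, ‖cut F a γ‖ₑ ≤ δ)
    (k : ℕ) (ε : ℝ≥0∞) (hε : ε ≠ 0) (hεt : ε ≠ ⊤) :
    ∃ (F : Fin k → Finset Γ) (a : Fin k → Γ → ℝ), (∀ j, P (F j) (a j)) ∧
      Nonempty (AlmostBlocks k ε (fun j => cut (F j) (a j))) := by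
  choose st h1 h2 h3 h4 using glide_step P hP ε hε hεt
  let M : ℕ → ℕ := fun i => Nat.rec k (fun _ M => (st M).2) i
  have hMs : ∀ i, M (i + 1) = (st (M i)).2 := fun i => rfl
  have hM : StrictMono M := strictMono_nat_of_lt_succ (fun i => by rw [hMs]; exact h1 _)
  refine ⟨fun j => (st (M j)).1.1, fun j => (st (M j)).1.2, fun j => h2 _, ⟨?_⟩⟩
  exact {
    W := fun j => {n | M j ≤ n ∧ n < M (j + 1)}
    hN := fun j => h3 _
    hW := fun j n hn => by
      have : M 0 ≤ M j := hM.monotone (Nat.zero_le _)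
      exact le_trans this hn.1
    hord := fun i j hij n m hn hm => by
      have h5 : M ((i : ℕ) + 1) ≤ M (j : ℕ) := hM.monotone (Nat.succ_le_of_lt hij)
      exact lt_of_lt_of_le hn.2 (h5.trans hm.1)
    hout := fun j => by
      have := h4 (M j)
      rw [← hMs] at this
      exact this }

lemma fc_eq_P (F : Finset Γ) (x : (longFam Γ).X) :
    fc F (fun γ => (longFam Γ).co γ x) = (longFam Γ).P F x := by
  rw [Half.SolidFam.P_eq]; rfl

open Classical in
lemma fc_cut {F G : Finset Γ} (h : F ⊆ G) (a : Γ → ℝ) : fc G (cut F a) = fc F a := by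
  unfold fc cut
  rw [← Finset.sum_subset h]
  · refine Finset.sum_congr rfl (fun γ hγ => ?_)
    simp [hγ]
  · intro γ _ hγ
    simp [hγ]

lemma sum_smul_fc {k : ℕ} (F : Fin k → Finset Γ) (a : Fin k → Γ → ℝ) (c : Fin k → ℝ) :
    ‖∑ j, c j • fc (F j) (a j)‖ₑ = N (fun γ => ∑ j, c j * cut (F j) (a j) γ) := by
  classical
  set G := Finset.univ.biUnion F with hG
  have hFG : ∀ j, F j ⊆ G := fun j => Finset.subset_biUnion_of_mem F (Finset.mem_univ j)
  have h1 : ∑ j, c j • fc (F j) (a j) = fc G (fun γ => ∑ j, c j * cut (F j) (a j) γ) := by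
    calc ∑ j, c j • fc (F j) (a j) = ∑ j, c j • fc G (cut (F j) (a j)) := by
          refine Finset.sum_congr rfl (fun j _ => ?_)
          rw [fc_cut (hFG j)]
      _ = _ := by
          unfold fc
          simp only [Finset.smul_sum, Finset.sum_smul, smul_smul]
          rw [Finset.sum_comm]
  rw [h1, enorm_fc]
  congr 1
  funext γ
  by_cases h : γ ∈ G
  · simp [cut, h]
  · have h2 : ∀ j, γ ∉ F j := fun j hj => h (hFG j hj)
    simp [cut, h, h2]

lemma co_fc (F : Finset Γ) (a : Γ → ℝ) (γ : Γ) (h : γ ∈ F) : (longFam Γ).co γ (fc F a) = a γ := by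
  classical
  unfold fc
  rw [map_sum, Finset.sum_eq_single γ]
  · simp [Half.SolidFam.co_e]
  · intro b _ hb
    simp [Half.SolidFam.co_e, hb]
  · intro h'; exact absurd h h'

/-- the unit vector basis is shrinking -/
theorem shrinking (f : (longFam Γ).X →L[ℝ] ℝ) (δ : ℝ) (hδ : 0 < δ) :
    ∃ F0 : Finset Γ, ∀ F : Finset Γ, Disjoint F F0 → ∀ a, |f (fc F a)| ≤ δ * ‖fc F a‖ := by
  classical
  by_contra hcon
  push Not at hcon
  -- normalised
  have hnorm : ∀ F0 : Finset Γ, ∃ F : Finset Γ, Disjoint F F0 ∧ ∃ a : Γ → ℝ, ‖fc F a‖ ≤ 1 ∧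
      (∀ γ ∈ F, |a γ| ≤ 2) ∧ δ ≤ f (fc F a) := by
    intro F0
    obtain ⟨F, hF, a, ha⟩ := hcon F0
    have hne : ‖fc F a‖ ≠ 0 := by
      intro h
      have h0 : fc F a = 0 := norm_eq_zero.mp h
      rw [h0] at ha
      simp at ha
    have hpos : 0 < ‖fc F a‖ := lt_of_le_of_ne (norm_nonneg _) (Ne.symm hne)
    -- sign
    obtain ⟨s, hs, hsf⟩ : ∃ s : ℝ, |s| = 1 ∧ s * f (fc F a) = |f (fc F a)| := by
      rcases le_total 0 (f (fc F a)) with h | h
      · exact ⟨1, by simp, by rw [one_mul, abs_of_nonneg h]⟩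
      · exact ⟨-1, by simp, by rw [abs_of_nonpos h]; ring⟩
    have hfc : fc F (fun γ => (s / ‖fc F a‖) * a γ) = (s / ‖fc F a‖) • fc F a := by
      unfold fc
      rw [Finset.smul_sum]
      refine Finset.sum_congr rfl (fun γ _ => ?_)
      rw [smul_smul]
    have hn1 : ‖fc F (fun γ => (s / ‖fc F a‖) * a γ)‖ ≤ 1 := by
      rw [hfc, norm_smul, Real.norm_eq_abs, abs_div, hs, abs_norm]
      rw [one_div, inv_mul_cancel₀ hne]
    refine ⟨F, hF, fun γ => (s / ‖fc F a‖) * a γ, hn1, ?_, ?_⟩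
    · intro γ hγ
      have h1 := (longFam Γ).abs_co_le γ (fc F (fun γ => (s / ‖fc F a‖) * a γ))
      rw [co_fc _ _ _ hγ] at h1
      linarith
    · rw [hfc, map_smul, smul_eq_mul]
      rw [div_mul_eq_mul_div, hsf, le_div_iff₀ hpos]
      exact ha.le
  have havg : ∀ R : ℕ, ∀ F0 : Finset Γ, ∃ F : Finset Γ, Disjoint F F0 ∧ ∃ a : Γ → ℝ,
      ‖fc F a‖ ≤ R ∧ (∀ γ ∈ F, |a γ| ≤ 2) ∧ R * δ ≤ f (fc F a) := by
    intro R
    induction R with
    | zero =>
      intro F0
      exact ⟨∅, Finset.disjoint_empty_left _, 0, by simp [fc], by simp, by simp [fc]⟩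
    | succ R ih =>
      intro F0
      obtain ⟨F, hF, a, h1, h2, h3⟩ := ih F0
      obtain ⟨F', hF', a', h1', h2', h3'⟩ := hnorm (F0 ∪ F)
      rw [Finset.disjoint_union_right] at hF'
      have hd : Disjoint F F' := hF'.2.symm
      have hsum : fc (F ∪ F') (fun γ => if γ ∈ F then a γ else a' γ) = fc F a + fc F' a' := by
        unfold fc
        rw [Finset.sum_union hd]
        congr 1
        · refine Finset.sum_congr rfl (fun γ hγ => ?_)
          simp [hγ]
        · refine Finset.sum_congr rfl (fun γ hγ => ?_)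
          have : γ ∉ F := fun h => Finset.disjoint_left.mp hd h hγ
          simp [this]
      refine ⟨F ∪ F', Finset.disjoint_union_left.mpr ⟨hF, hF'.1⟩,
        fun γ => if γ ∈ F then a γ else a' γ, ?_, ?_, ?_⟩
      · rw [hsum]
        push_cast
        exact (norm_add_le _ _).trans (by linarith)
      · intro γ hγ
        dsimp only
        split_ifs with h
        · exact h2 γ h
        · exact h2' γ ((Finset.mem_union.mp hγ).resolve_left h)
      · rw [hsum, map_add]
        push_cast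
        linarith
  -- choose k
  obtain ⟨k, hk⟩ := exists_nat_gt (3 * ‖f‖ / δ)
  have hk' : 3 * ‖f‖ < k * δ := by
    rwa [div_lt_iff₀ hδ] at hk
  have hkpos : 0 < k := by
    rcases Nat.eq_zero_or_pos k with h | h
    · subst h
      have := norm_nonneg f
      simp at hk'
      linarith
    · exact h
  obtain ⟨F, a, hFa, ⟨A⟩⟩ := exists_almostBlocks (fun F a => δ ≤ f (fc F a)) (by
    intro δ' hδ'
    obtain ⟨R, hR⟩ : ∃ R : ℕ, (2 : ℝ≥0∞) / ((R : ℝ≥0∞) + 1) ≤ δ' := by
      have h1 : Tendsto (fun n : ℕ => (2 : ℝ≥0∞) / ((n + 1 : ℕ) : ℝ≥0∞)) atTop (𝓝 0) := by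
        have h2 := (ENNReal.Tendsto.const_div (a := 2) ENNReal.tendsto_nat_nhds_top (Or.inr (by norm_num)))
        rw [ENNReal.div_top] at h2
        exact h2.comp (tendsto_add_atTop_nat 1)
      obtain ⟨R, hR⟩ := (h1.eventually (gt_mem_nhds (pos_iff_ne_zero.mpr hδ'))).exists
      exact ⟨R, by push_cast at hR; exact hR.le⟩
    obtain ⟨F, _, a, h1, h2, h3⟩ := havg (R + 1) ∅
    have hR1 : (0 : ℝ) < (R + 1 : ℕ) := by positivity
    have hfc : fc F (fun γ => ((R + 1 : ℕ) : ℝ)⁻¹ * a γ) = ((R + 1 : ℕ) : ℝ)⁻¹ • fc F a := by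
      unfold fc
      rw [Finset.smul_sum]
      refine Finset.sum_congr rfl (fun γ _ => ?_)
      rw [smul_smul]
    refine ⟨F, fun γ => ((R + 1 : ℕ) : ℝ)⁻¹ * a γ, ?_, ?_, ?_⟩
    · rw [hfc, map_smul, smul_eq_mul, ← div_eq_inv_mul, le_div_iff₀ hR1]
      linarith
    · rw [← enorm_fc, hfc, ← ofReal_norm, ENNReal.ofReal_le_one, norm_smul, norm_inv, Real.norm_natCast,
        ← div_eq_inv_mul, div_le_one hR1]
      exact h1
    · intro γ
      by_cases h : γ ∈ F
      · simp only [cut, h, if_true]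
        refine le_trans ?_ hR
        rw [Real.enorm_eq_ofReal_abs, abs_mul, abs_inv]
        have h4 : |((R + 1 : ℕ) : ℝ)| = (R + 1 : ℕ) := abs_of_pos hR1
        rw [h4]
        calc ENNReal.ofReal (((R + 1 : ℕ) : ℝ)⁻¹ * |a γ|) ≤ ENNReal.ofReal (((R + 1 : ℕ) : ℝ)⁻¹ * 2) := by
              apply ENNReal.ofReal_le_ofReal
              gcongr
              exact h2 γ h
          _ = 2 / ((R : ℝ≥0∞) + 1) := by
              rw [ENNReal.ofReal_mul (by positivity), ENNReal.ofReal_inv_of_pos hR1, ENNReal.ofReal_natCast,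
                ENNReal.div_eq_inv_mul]
              push_cast
              norm_num
      · simp [cut, h]) k (1 / k) (by simp) (by
        rw [one_div]; exact ENNReal.inv_ne_top.mpr (by exact_mod_cast hkpos.ne'))
  have h1 := A.upper (fun _ => 1) (fun _ => by simp)
  rw [← sum_smul_fc] at h1
  have h2 : (2 : ℝ≥0∞) + k * (1 / k) = 3 := by
    rw [one_div, ENNReal.mul_inv_cancel (by exact_mod_cast hkpos.ne') (by simp)]
    norm_num
  rw [h2] at h1
  have h3 : ‖∑ j, (1 : ℝ) • fc (F j) (a j)‖ ≤ 3 := by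
    have := ENNReal.toReal_mono (by norm_num) h1
    simpa using this
  have h4 : k * δ ≤ f (∑ j, (1 : ℝ) • fc (F j) (a j)) := by
    rw [map_sum]
    calc (k : ℝ) * δ = ∑ _j : Fin k, δ := by simp
      _ ≤ ∑ j, f ((1 : ℝ) • fc (F j) (a j)) := by
          refine Finset.sum_le_sum (fun j _ => ?_)
          rw [one_smul]
          exact hFa j
  have h5 := f.le_opNorm (∑ j, (1 : ℝ) • fc (F j) (a j))
  have h6 : f (∑ j, (1 : ℝ) • fc (F j) (a j)) ≤ ‖f‖ * 3 := by
    refine (le_abs_self _).trans (h5.trans ?_)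
    gcongr
  linarith

/-- reflexivity -/
theorem reflexive (φ : ((longFam Γ).X →L[ℝ] ℝ) →L[ℝ] ℝ) :
    ∃ x : (longFam Γ).X, ∀ f : (longFam Γ).X →L[ℝ] ℝ, φ f = f x := by
  classical
  set y : Γ → ℝ := fun γ => φ ((longFam Γ).co γ) with hy
  have hb : ∀ F : Finset Γ, ‖fc F y‖ ≤ ‖φ‖ := by
    intro F
    refine ((longFam Γ).norm_le_iff (fc F y) (norm_nonneg φ)).mpr (fun v => ?_)
    rw [ev_fc]
    have h1 : ∑ γ ∈ F, y γ * v.1 γ = φ (∑ γ ∈ F, v.1 γ • (longFam Γ).co γ) := by
      rw [map_sum]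
      refine Finset.sum_congr rfl (fun γ _ => ?_)
      rw [map_smul, smul_eq_mul, mul_comm]
    rw [h1]
    have h2 : ‖∑ γ ∈ F, v.1 γ • (longFam Γ).co γ‖ ≤ 1 := by
      refine ContinuousLinearMap.opNorm_le_bound _ zero_le_one (fun x => ?_)
      have h3 : (∑ γ ∈ F, v.1 γ • (longFam Γ).co γ) x = (longFam Γ).ev v ((longFam Γ).P F x) := by
        rw [Half.SolidFam.P_eq, map_sum]
        simp [mul_comm]
      rw [h3, one_mul]
      exact ((longFam Γ).abs_ev_le v _).trans ((longFam Γ).norm_P_le F x)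
    calc |φ (∑ γ ∈ F, v.1 γ • (longFam Γ).co γ)| ≤ ‖φ‖ * ‖∑ γ ∈ F, v.1 γ • (longFam Γ).co γ‖ := φ.le_opNorm _
      _ ≤ ‖φ‖ * 1 := by gcongr
      _ = ‖φ‖ := mul_one _
  obtain ⟨x, hx⟩ := bdd_complete y ⟨‖φ‖, hb⟩
  refine ⟨x, fun f => ?_⟩
  -- show |φ f - f x| ≤ ε
  have key : ∀ ε : ℝ, 0 < ε → |φ f - f x| ≤ ε := by
    intro ε hε
    set δ := ε / (2 * (‖φ‖ + 1)) with hδ
    have hδpos : 0 < δ := by positivity
    obtain ⟨F0, hF0⟩ := shrinking f δ hδpos
    -- limit of partial sums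
    have hlim : Tendsto (fun F : Finset Γ => f (fc F y)) atTop (𝓝 (f x)) := by
      have h1 : Tendsto (fun F : Finset Γ => fc F y) atTop (𝓝 x) := by
        have := hx
        rwa [HasSum, SummationFilter.unconditional_filter] at this
      exact (f.continuous.tendsto x).comp h1
    obtain ⟨F1, hF1⟩ := (Metric.tendsto_atTop.mp hlim) (ε / 2) (by positivity)
    set F := F0 ∪ F1 with hF
    have h1 := hF1 F Finset.subset_union_right
    rw [Real.dist_eq] at h1
    have h2 : f (fc F y) = φ (f.comp ((longFam Γ).P F)) := by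
      have h3 : f.comp ((longFam Γ).P F) = ∑ γ ∈ F, f ((longFam Γ).e γ) • (longFam Γ).co γ := by
        ext z
        rw [ContinuousLinearMap.comp_apply, Half.SolidFam.P_eq, map_sum]
        simp [mul_comm]
      rw [h3, map_sum]
      unfold fc
      rw [map_sum]
      refine Finset.sum_congr rfl (fun γ _ => ?_)
      rw [map_smul, map_smul, smul_eq_mul, smul_eq_mul, mul_comm]
    have h4 : ‖f - f.comp ((longFam Γ).P F)‖ ≤ δ := by
      refine ContinuousLinearMap.opNorm_le_bound _ hδpos.le (fun z => ?_)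
      have h5 : ∀ η : ℝ, 0 < η → ‖(f - f.comp ((longFam Γ).P F)) z‖ ≤ δ * ‖z‖ + ‖f‖ * η := by
        intro η hη
        obtain ⟨G0, hG0⟩ := (longFam Γ).exists_P z η hη
        have h6 := hG0 (G0 ∪ F) Finset.subset_union_left
        have h7 : (f - f.comp ((longFam Γ).P F)) z
            = f (z - (longFam Γ).P (G0 ∪ F) z) + f (fc ((G0 ∪ F) \ F) (fun γ => (longFam Γ).co γ z)) := by
          have h8 : (longFam Γ).P (G0 ∪ F) z = fc ((G0 ∪ F) \ F) (fun γ => (longFam Γ).co γ z)
              + (longFam Γ).P F z := by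
            rw [← fc_eq_P, ← fc_eq_P]
            unfold fc
            exact (Finset.sum_sdiff Finset.subset_union_right).symm
          rw [h8]
          simp only [sub_apply, ContinuousLinearMap.comp_apply, map_sub, map_add]
          ring
        rw [h7]
        have hd : Disjoint ((G0 ∪ F) \ F) F0 := by
          refine Finset.disjoint_of_subset_right Finset.subset_union_left (Finset.sdiff_disjoint)
        have h9 := hF0 _ hd (fun γ => (longFam Γ).co γ z)
        have h10 : ‖fc ((G0 ∪ F) \ F) (fun γ => (longFam Γ).co γ z)‖ ≤ ‖z‖ := by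
          rw [fc_eq_P]; exact (longFam Γ).norm_P_le _ _
        calc ‖f (z - (longFam Γ).P (G0 ∪ F) z) + f (fc ((G0 ∪ F) \ F) (fun γ => (longFam Γ).co γ z))‖
            ≤ ‖f (z - (longFam Γ).P (G0 ∪ F) z)‖ + ‖f (fc ((G0 ∪ F) \ F) (fun γ => (longFam Γ).co γ z))‖ :=
              norm_add_le _ _
          _ ≤ ‖f‖ * η + δ * ‖z‖ := by
              refine add_le_add ((f.le_opNorm _).trans (by gcongr)) ?_
              rw [Real.norm_eq_abs]
              exact h9.trans (by gcongr)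
          _ = _ := by ring
      by_contra hlt
      push Not at hlt
      set d := ‖(f - f.comp ((longFam Γ).P F)) z‖ - δ * ‖z‖ with hd
      have hdpos : 0 < d := by linarith
      have h6 := h5 (d / (2 * (‖f‖ + 1))) (by positivity)
      have h7 : ‖f‖ * (d / (2 * (‖f‖ + 1))) ≤ d / 2 := by
        rw [mul_div_assoc', div_le_div_iff₀ (by positivity) (by positivity)]
        nlinarith [norm_nonneg f]
      linarith
    have h5 : |φ f - f (fc F y)| ≤ ε / 2 := by
      rw [h2, ← map_sub]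
      refine (φ.le_opNorm _).trans ?_
      calc ‖φ‖ * ‖f - f.comp ((longFam Γ).P F)‖ ≤ ‖φ‖ * δ := by gcongr
        _ ≤ ε / 2 := by
          rw [hδ, mul_div_assoc', div_le_div_iff₀ (by positivity) (by positivity)]
          nlinarith [norm_nonneg φ]
    calc |φ f - f x| = |(φ f - f (fc F y)) + (f (fc F y) - f x)| := by ring_nf
      _ ≤ |φ f - f (fc F y)| + |f (fc F y) - f x| := abs_add_le _ _
      _ ≤ ε := by linarith
  have h0 : |φ f - f x| = 0 := by
    apply le_antisymm _ (abs_nonneg _)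
    exact le_of_forall_pos_le_add (fun ε hε => by simpa using key ε hε)
  exact sub_eq_zero.mp (abs_eq_zero.mp h0)

end Pool.Agent.H69.Long
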