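import Pool.Agent.H69.LongRefl

set_option autoImplicit false
open Filter Topology
open scoped ENNReal

namespace Pool.Agent.H69.Long

variable {Γ : Type}

/-- in an infinite dimensional subspace one can kill finitely many coordinates -/
lemma exists_vanish (Y : Submodule ℝ (longFam Γ).X) (hY : ¬ FiniteDimensional ℝ Y) (F : Finset Γ) :
    ∃ y ∈ Y, ‖y‖ = 1 ∧ ∀ γ ∈ F, (longFam Γ).co γ y = 0 := by
  classical
  let L : Y →ₗ[ℝ] (F → ℝ) := LinearMap.pi (fun γ => ((longFam Γ).co γ.1).toLinearMap.comp Y.subtype)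
  have hL : ¬ Function.Injective L := fun h => hY (FiniteDimensional.of_injective L h)
  obtain ⟨y, hy, hy0⟩ : ∃ y : Y, L y = 0 ∧ y ≠ 0 := by
    by_contra hcon
    push Not at hcon
    apply hL
    rw [← LinearMap.ker_eq_bot, LinearMap.ker_eq_bot']
    exact hcon
  have hyn : ‖(y : (longFam Γ).X)‖ ≠ 0 := by
    rw [norm_ne_zero_iff]
    intro h
    exact hy0 (Subtype.ext h)
  refine ⟨‖(y : (longFam Γ).X)‖⁻¹ • (y : (longFam Γ).X), Y.smul_mem _ y.2, ?_, ?_⟩
  · rw [norm_smul, norm_inv, norm_norm, inv_mul_cancel₀ hyn]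
  · intro γ hγ
    rw [map_smul]
    have : L y ⟨γ, hγ⟩ = 0 := by rw [hy]; rfl
    have h2 : (longFam Γ).co γ (y : (longFam Γ).X) = 0 := this
    rw [h2]; simp

lemma exists_common (F : ℕ → Finset Γ) (hFm : Monotone F) (G : Finset Γ) :
    ∃ K, ∀ γ ∈ G, (∃ k, γ ∈ F k) → γ ∈ F K := by
  classical
  induction G using Finset.induction_on with
  | empty => exact ⟨0, by simp⟩
  | insert g G _ ih =>
    obtain ⟨K, hK⟩ := ih
    by_cases hg : ∃ k, g ∈ F k
    · obtain ⟨k, hk⟩ := hg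
      refine ⟨max K k, fun γ hγ hex => ?_⟩
      rcases Finset.mem_insert.mp hγ with h | h
      · subst h; exact hFm (le_max_right _ _) hk
      · exact hFm (le_max_left _ _) (hK γ h hex)
    · refine ⟨K, fun γ hγ hex => ?_⟩
      rcases Finset.mem_insert.mp hγ with h | h
      · subst h; exact absurd hex hg
      · exact hK γ h hex

/-- every infinite dimensional subspace contains normalised vectors with small coordinates -/
theorem small_sup (Y : Submodule ℝ (longFam Γ).X) (hY : ¬ FiniteDimensional ℝ Y) (δ : ℝ) (hδ : 0 < δ) :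
    ∃ y ∈ Y, ‖y‖ = 1 ∧ ∀ γ, |(longFam Γ).co γ y| ≤ δ := by
  classical
  by_contra hcon
  push Not at hcon
  -- homogeneous version
  have hhom : ∀ y ∈ Y, ∃ γ, δ * ‖y‖ ≤ |(longFam Γ).co γ y| ∨ y = 0 := by
    intro y hy
    by_cases h0 : y = 0
    · rcases isEmpty_or_nonempty Γ with hΓ | ⟨⟨γ⟩⟩
      · obtain ⟨y', hy', h1, _⟩ := exists_vanish Y hY ∅
        obtain ⟨γ, _⟩ := hcon y' hy' h1
        exact ⟨γ, Or.inr h0⟩
      · exact ⟨γ, Or.inr h0⟩
    · have hn : ‖y‖ ≠ 0 := norm_ne_zero_iff.mpr h0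
      have hpos : 0 < ‖y‖ := norm_pos_iff.mpr h0
      obtain ⟨γ, hγ⟩ := hcon (‖y‖⁻¹ • y) (Y.smul_mem _ hy) (by
        rw [norm_smul, norm_inv, norm_norm, inv_mul_cancel₀ hn])
      rw [map_smul, smul_eq_mul, abs_mul, abs_inv, abs_norm, ← div_eq_inv_mul, lt_div_iff₀ hpos] at hγ
      exact ⟨γ, Or.inl hγ.le⟩
  -- the step
  have hstep : ∀ (i : ℕ) (F : Finset Γ), ∃ p : (longFam Γ).X × Finset Γ, p.1 ∈ Y ∧ ‖p.1‖ = 1 ∧
      (∀ γ ∈ F, (longFam Γ).co γ p.1 = 0) ∧ F ⊆ p.2 ∧
      ‖p.1 - (longFam Γ).P p.2 p.1‖ ≤ (1 / 2) ^ (i + 3) := by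
    intro i F
    obtain ⟨y, hy, h1, h2⟩ := exists_vanish Y hY F
    obtain ⟨F0, hF0⟩ := (longFam Γ).exists_P y ((1 / 2) ^ (i + 3)) (by positivity)
    exact ⟨(y, F0 ∪ F), hy, h1, h2, Finset.subset_union_right, hF0 _ Finset.subset_union_left⟩
  choose st h1 h2 h3 h4 h5 using hstep
  let F : ℕ → Finset Γ := fun i => Nat.rec ∅ (fun i F => (st i F).2) i
  let y : ℕ → (longFam Γ).X := fun i => (st i (F i)).1
  have hFs : ∀ i, F (i + 1) = (st i (F i)).2 := fun i => rfl
  have hyY : ∀ i, y i ∈ Y := fun i => h1 _ _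
  have hyn : ∀ i, ‖y i‖ = 1 := fun i => h2 _ _
  have hy0 : ∀ i, ∀ γ ∈ F i, (longFam Γ).co γ (y i) = 0 := fun i => h3 _ _
  have hFm : Monotone F := monotone_nat_of_le_succ (fun i => by rw [hFs]; exact h4 _ _)
  have hyP : ∀ i, ‖y i - (longFam Γ).P (F (i + 1)) (y i)‖ ≤ (1 / 2) ^ (i + 3) := fun i => by
    rw [hFs]; exact h5 _ _
  have hF00 : F 0 = ∅ := rfl
  clear_value y
  clear_value F
  -- projection onto the new part
  have hPd : ∀ i, (longFam Γ).P (F (i + 1) \ F i) (y i) = (longFam Γ).P (F (i + 1)) (y i) := by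
    intro i
    rw [Half.SolidFam.P_eq, Half.SolidFam.P_eq]
    apply Finset.sum_subset Finset.sdiff_subset
    intro γ hγ hγ'
    have : γ ∈ F i := by
      by_contra h
      exact hγ' (Finset.mem_sdiff.mpr ⟨hγ, h⟩)
    rw [hy0 i γ this, zero_smul]
  have hgeo : ∀ K : ℕ, ∑ i ∈ Finset.range K, ((1 : ℝ) / 2) ^ (i + 3) ≤ 1 / 4 := by
    intro K
    have : ∀ K : ℕ, ∑ i ∈ Finset.range K, ((1 : ℝ) / 2) ^ (i + 3) = 1 / 4 - (1 / 2) ^ (K + 2) := by
      intro K
      induction K with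
      | zero => norm_num
      | succ K ih => rw [Finset.sum_range_succ, ih]; ring
    rw [this K]
    have : (0 : ℝ) ≤ (1 / 2) ^ (K + 2) := by positivity
    linarith
  set s : ℕ → (longFam Γ).X := fun K => ∑ i ∈ Finset.range K, y i with hs
  -- bound on the sup norm of s K
  have hsup : ∀ K γ, |(longFam Γ).co γ (s K)| ≤ 3 := by
    intro K γ
    have h6 : ∀ i, |(longFam Γ).co γ (y i)| ≤ 2 * (1 / 2) ^ (i + 3)
        + (if γ ∈ F (i + 1) \ F i then (2 : ℝ) else 0) := by
      intro i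
      by_cases hγ : γ ∈ F (i + 1)
      · by_cases hγ' : γ ∈ F i
        · rw [hy0 i γ hγ', abs_zero]
          positivity
        · rw [if_pos (Finset.mem_sdiff.mpr ⟨hγ, hγ'⟩)]
          have := (longFam Γ).abs_co_le γ (y i)
          rw [hyn i] at this
          have h7 : (0 : ℝ) ≤ 2 * (1 / 2) ^ (i + 3) := by positivity
          linarith
      · have h7 : (longFam Γ).co γ (y i) = (longFam Γ).co γ (y i - (longFam Γ).P (F (i + 1)) (y i)) := by
          rw [map_sub]
          have : (longFam Γ).co γ ((longFam Γ).P (F (i + 1)) (y i)) = 0 := by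
            rw [Half.SolidFam.P_eq, map_sum]
            refine Finset.sum_eq_zero (fun γ' hγ' => ?_)
            rw [map_smul, Half.SolidFam.co_e]
            have : γ' ≠ γ := fun h => hγ (h ▸ hγ')
            simp [this]
          rw [this, sub_zero]
        rw [h7]
        have h8 := (longFam Γ).abs_co_le γ (y i - (longFam Γ).P (F (i + 1)) (y i))
        have h9 := hyP i
        have h10 : (0 : ℝ) ≤ (if γ ∈ F (i + 1) \ F i then (2 : ℝ) else 0) := by split_ifs <;> norm_num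
        linarith
    have h7 : ∑ i ∈ Finset.range K, (if γ ∈ F (i + 1) \ F i then (2 : ℝ) else 0) ≤ 2 := by
      have h8 : ((Finset.range K).filter (fun i => γ ∈ F (i + 1) \ F i)).card ≤ 1 := by
        rw [Finset.card_le_one]
        intro a ha b hb
        simp only [Finset.mem_filter, Finset.mem_sdiff] at ha hb
        by_contra hne
        rcases lt_or_gt_of_ne hne with h | h
        · exact hb.2.2 (hFm (Nat.succ_le_of_lt h) ha.2.1)
        · exact ha.2.2 (hFm (Nat.succ_le_of_lt h) hb.2.1)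
      rw [← Finset.sum_filter, Finset.sum_const, nsmul_eq_mul]
      have : (((Finset.range K).filter (fun i => γ ∈ F (i + 1) \ F i)).card : ℝ) ≤ 1 := by exact_mod_cast h8
      linarith
    rw [hs]
    dsimp only
    rw [map_sum]
    calc |∑ i ∈ Finset.range K, (longFam Γ).co γ (y i)| ≤ ∑ i ∈ Finset.range K, |(longFam Γ).co γ (y i)| :=
          Finset.abs_sum_le_sum_abs _ _
      _ ≤ ∑ i ∈ Finset.range K, (2 * (1 / 2) ^ (i + 3) + (if γ ∈ F (i + 1) \ F i then (2 : ℝ) else 0)) :=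
          Finset.sum_le_sum (fun i _ => h6 i)
      _ = 2 * ∑ i ∈ Finset.range K, ((1 : ℝ) / 2) ^ (i + 3)
          + ∑ i ∈ Finset.range K, (if γ ∈ F (i + 1) \ F i then (2 : ℝ) else 0) := by
          rw [Finset.sum_add_distrib, Finset.mul_sum]
      _ ≤ 3 := by
          have := hgeo K
          linarith
  have hsn : ∀ K, ‖s K‖ ≤ 3 / δ := by
    intro K
    obtain ⟨γ, hγ | hγ⟩ := hhom (s K) (Y.sum_mem (fun i _ => hyY i))
    · rw [le_div_iff₀ hδ, mul_comm]
      exact hγ.trans (hsup K γ)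
    · rw [hγ, norm_zero]; positivity
  -- the coordinate function
  let a : Γ → ℝ := fun γ => @ite ℝ (∃ k, γ ∈ F k) (Classical.propDecidable _)
    ((longFam Γ).co γ (y (sInf {k | γ ∈ F (k + 1)}))) 0
  have ha : ∀ i, ∀ γ ∈ F (i + 1) \ F i, a γ = (longFam Γ).co γ (y i) := by
    intro i γ hγ
    rw [Finset.mem_sdiff] at hγ
    have h6 : sInf {k | γ ∈ F (k + 1)} = i := by
      apply le_antisymm (Nat.sInf_le hγ.1)
      by_contra hlt
      push Not at hlt
      have hne : {k | γ ∈ F (k + 1)}.Nonempty := ⟨i, hγ.1⟩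
      exact hγ.2 (hFm (Nat.succ_le_of_lt hlt) (Nat.sInf_mem hne))
    simp only [a]
    rw [if_pos ⟨i + 1, hγ.1⟩, h6]
  have hfcd : ∀ i, fc (F (i + 1) \ F i) a = (longFam Γ).P (F (i + 1)) (y i) := by
    intro i
    rw [← hPd i, ← fc_eq_P]
    unfold fc
    exact Finset.sum_congr rfl (fun γ hγ => by rw [ha i γ hγ])
  have hfcF : ∀ K, fc (F K) a = ∑ i ∈ Finset.range K, (longFam Γ).P (F (i + 1)) (y i) := by
    intro K
    induction K with
    | zero => simp [fc, hF00]
    | succ K ih =>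
      rw [Finset.sum_range_succ, ← ih, ← hfcd K]
      unfold fc
      have h6 := Finset.sum_sdiff (f := fun γ => a γ • (longFam Γ).e γ) (hFm (Nat.le_succ K))
      rw [Nat.succ_eq_add_one] at h6
      rw [← h6, add_comm]
  have hbF : ∀ K, ‖fc (F K) a‖ ≤ 3 / δ + 1 := by
    intro K
    have h6 : fc (F K) a = s K - ∑ i ∈ Finset.range K, (y i - (longFam Γ).P (F (i + 1)) (y i)) := by
      rw [hfcF K, hs, Finset.sum_sub_distrib]
      abel
    rw [h6]
    refine (norm_sub_le _ _).trans (add_le_add (hsn K) ?_)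
    refine (norm_sum_le _ _).trans ((Finset.sum_le_sum (fun i _ => hyP i)).trans ((hgeo K).trans (by norm_num)))
  have hb : ∀ G : Finset Γ, ‖fc G a‖ ≤ 3 / δ + 1 := by
    intro G
    obtain ⟨K, hK⟩ := exists_common F hFm G
    have h6 : fc G a = (longFam Γ).P G (fc (F K) a) := by
      rw [← fc_eq_P]
      unfold fc
      refine Finset.sum_congr rfl (fun γ hγ => ?_)
      refine congrArg (fun r : ℝ => r • (longFam Γ).e γ) ?_
      show a γ = (longFam Γ).co γ (fc (F K) a)
      by_cases hk : γ ∈ F K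
      · exact (co_fc (F K) a γ hk).symm
      · have h7 : a γ = 0 := by
          simp only [a]
          rw [if_neg]
          intro hex
          exact hk (hK γ hγ hex)
        rw [h7]
        have : (longFam Γ).co γ (fc (F K) a) = 0 := by
          unfold fc
          rw [map_sum]
          refine Finset.sum_eq_zero (fun γ' hγ' => ?_)
          rw [map_smul, Half.SolidFam.co_e]
          have : γ' ≠ γ := fun h => hk (h ▸ hγ')
          simp [this]
        exact this.symm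
    rw [h6]
    exact ((longFam Γ).norm_P_le _ _).trans (hbF K)
  have hsum := bdd_complete a ⟨_, hb⟩
  rw [summable_iff_vanishing_norm] at hsum
  obtain ⟨G0, hG0⟩ := hsum (1 / 2) (by norm_num)
  obtain ⟨K, hK⟩ := exists_common F hFm G0
  have hdisj : Disjoint (F (K + 1) \ F K) G0 := by
    rw [Finset.disjoint_left]
    intro γ hγ hγ'
    rw [Finset.mem_sdiff] at hγ
    exact hγ.2 (hK γ hγ' ⟨K + 1, hγ.1⟩)
  have h6 := hG0 _ hdisj
  have h7 : ‖fc (F (K + 1) \ F K) a‖ < 1 / 2 := h6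
  rw [hfcd K] at h7
  have h8 := hyP K
  have h9 : ‖y K‖ ≤ ‖y K - (longFam Γ).P (F (K + 1)) (y K)‖ + ‖(longFam Γ).P (F (K + 1)) (y K)‖ := by
    have := norm_add_le (y K - (longFam Γ).P (F (K + 1)) (y K)) ((longFam Γ).P (F (K + 1)) (y K))
    rwa [sub_add_cancel] at this
  rw [hyn K] at h9
  have h10 : ((1 : ℝ) / 2) ^ (K + 3) ≤ 1 / 8 := by
    calc ((1 : ℝ) / 2) ^ (K + 3) ≤ (1 / 2) ^ 3 :=
          pow_le_pow_of_le_one (by norm_num) (by norm_num) (by omega)
      _ = 1 / 8 := by norm_num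
  linarith

end Pool.Agent.H69.Long
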