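import Mathlib

set_option autoImplicit false
open Filter Topology
open scoped BoundedContinuousFunction

namespace Pool.Agent.H69

/-- A family `V` of functionals on finitely supported functions on `Γ`: bounded by one on the unit
vectors, containing the coordinate functionals and closed under multipliers bounded by one. -/
structure SolidFam (Γ : Type) where
  /-- the set of functionals -/
  V : Set (Γ → ℝ)
  abs_le : ∀ v ∈ V, ∀ γ, |v γ| ≤ 1
  coord : ∀ γ : Γ, (fun γ' => open Classical in if γ' = γ then (1 : ℝ) else 0) ∈ V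
  mul : ∀ v ∈ V, ∀ m : Γ → ℝ, (∀ γ, |m γ| ≤ 1) → (fun γ => m γ * v γ) ∈ V

namespace SolidFam

variable {Γ : Type} (S : SolidFam Γ)

/-- The ambient Banach space of bounded continuous functions on the family. -/
abbrev Amb := S.V →ᵇ ℝ

/-- The unit vectors. -/
noncomputable def uv (γ : Γ) : S.Amb :=
  BoundedContinuousFunction.ofNormedAddCommGroup (fun v : S.V => v.1 γ)
    ((continuous_apply γ).comp continuous_subtype_val) 1
    (fun v => by simpa using S.abs_le v.1 v.2 γ)

@[simp] lemma uv_apply (γ : Γ) (v : S.V) : S.uv γ v = v.1 γ := rfl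

/-- The Banach space generated by the family, as a submodule. -/
noncomputable def sub : Submodule ℝ S.Amb := (Submodule.span ℝ (Set.range S.uv)).topologicalClosure

/-- The Banach space generated by the family. -/
def X : Type := S.sub

noncomputable instance : NormedAddCommGroup S.X := inferInstanceAs (NormedAddCommGroup S.sub)
noncomputable instance : NormedSpace ℝ S.X := inferInstanceAs (NormedSpace ℝ S.sub)
instance : CompleteSpace S.X := (Submodule.isClosed_topologicalClosure _).completeSpace_coe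

/-- The inclusion into the ambient space. -/
noncomputable def val : S.X →L[ℝ] S.Amb := S.sub.subtypeL

lemma val_injective : Function.Injective S.val := Subtype.val_injective

lemma norm_val (x : S.X) : ‖S.val x‖ = ‖x‖ := rfl

lemma uv_mem (γ : Γ) : S.uv γ ∈ S.sub :=
  Submodule.le_topologicalClosure _ (Submodule.subset_span ⟨γ, rfl⟩)

/-- The unit vectors as elements of the space. -/
noncomputable def e (γ : Γ) : S.X := ⟨S.uv γ, S.uv_mem γ⟩

@[simp] lemma val_e (γ : Γ) : S.val (S.e γ) = S.uv γ := rfl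

/-- coordinate functional as a point of the family -/
noncomputable def cv (γ : Γ) : S.V := ⟨_, S.coord γ⟩

open Classical in
@[simp] lemma cv_apply (γ γ' : Γ) : (S.cv γ).1 γ' = if γ' = γ then (1 : ℝ) else 0 := by
  simp [cv]

/-- The map `v ↦ m v` on the family. -/
noncomputable def mulMap (m : Γ → ℝ) (hm : ∀ γ, |m γ| ≤ 1) : C(S.V, S.V) :=
  ⟨fun v => ⟨fun γ => m γ * v.1 γ, S.mul v.1 v.2 m hm⟩, by
    refine Continuous.subtype_mk ?_ _
    refine continuous_pi (fun γ => ?_)
    exact continuous_const.mul ((continuous_apply γ).comp continuous_subtype_val)⟩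

/-- Multiplier operator on the ambient space. -/
noncomputable def MA (m : Γ → ℝ) (hm : ∀ γ, |m γ| ≤ 1) : S.Amb →L[ℝ] S.Amb :=
  BoundedContinuousFunction.compContinuousCLM ℝ ℝ (S.mulMap m hm)

lemma MA_apply (m : Γ → ℝ) (hm : ∀ γ, |m γ| ≤ 1) (x : S.Amb) (v : S.V) :
    S.MA m hm x v = x (S.mulMap m hm v) := rfl

lemma MA_uv (m : Γ → ℝ) (hm : ∀ γ, |m γ| ≤ 1) (γ : Γ) :
    S.MA m hm (S.uv γ) = m γ • S.uv γ := by
  ext v
  simp [MA_apply, mulMap]

lemma norm_MA_le (m : Γ → ℝ) (hm : ∀ γ, |m γ| ≤ 1) (x : S.Amb) : ‖S.MA m hm x‖ ≤ ‖x‖ := by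
  rw [BoundedContinuousFunction.norm_le (norm_nonneg _)]
  intro v
  rw [MA_apply]
  exact x.norm_coe_le_norm _

lemma MA_mem (m : Γ → ℝ) (hm : ∀ γ, |m γ| ≤ 1) (x : S.Amb) (hx : x ∈ S.sub) :
    S.MA m hm x ∈ S.sub := by
  have h1 : Set.MapsTo (S.MA m hm) (Submodule.span ℝ (Set.range S.uv) : Set S.Amb)
      (Submodule.span ℝ (Set.range S.uv) : Set S.Amb) := by
    intro y hy
    induction hy using Submodule.span_induction with
    | mem y hy =>
      obtain ⟨γ, rfl⟩ := hy
      rw [MA_uv]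
      exact Submodule.smul_mem _ _ (Submodule.subset_span ⟨γ, rfl⟩)
    | zero => simp
    | add a b _ _ ha hb => rw [map_add]; exact Submodule.add_mem _ ha hb
    | smul c a _ ha => rw [map_smul]; exact Submodule.smul_mem _ _ ha
  have h2 := h1.closure (S.MA m hm).continuous
  exact h2 hx

/-- Multiplier operator on the space. -/
noncomputable def M (m : Γ → ℝ) (hm : ∀ γ, |m γ| ≤ 1) : S.X →L[ℝ] S.X :=
  ((S.MA m hm).comp S.sub.subtypeL).codRestrict S.sub (fun x => S.MA_mem m hm x.1 x.2)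

@[simp] lemma val_M (m : Γ → ℝ) (hm : ∀ γ, |m γ| ≤ 1) (x : S.X) :
    S.val (S.M m hm x) = S.MA m hm (S.val x) := rfl

lemma norm_M_le (m : Γ → ℝ) (hm : ∀ γ, |m γ| ≤ 1) (x : S.X) : ‖S.M m hm x‖ ≤ ‖x‖ := by
  rw [← norm_val, ← norm_val, val_M]
  exact S.norm_MA_le m hm _

lemma M_e (m : Γ → ℝ) (hm : ∀ γ, |m γ| ≤ 1) (γ : Γ) :
    S.M m hm (S.e γ) = m γ • S.e γ := by
  apply S.val_injective
  rw [val_M, val_e, MA_uv, map_smul, val_e]

/-- Evaluation at a member of the family. -/
noncomputable def ev (v : S.V) : S.X →L[ℝ] ℝ :=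
  (BoundedContinuousFunction.evalCLM ℝ v).comp S.val

lemma ev_apply (v : S.V) (x : S.X) : S.ev v x = S.val x v := rfl

@[simp] lemma ev_e (v : S.V) (γ : Γ) : S.ev v (S.e γ) = v.1 γ := rfl

lemma abs_ev_le (v : S.V) (x : S.X) : |S.ev v x| ≤ ‖x‖ :=
  (S.val x).norm_coe_le_norm v

lemma norm_le_iff (x : S.X) {C : ℝ} (hC : 0 ≤ C) : ‖x‖ ≤ C ↔ ∀ v : S.V, |S.ev v x| ≤ C :=
  BoundedContinuousFunction.norm_le (f := S.val x) hC

/-- Coordinates. -/
noncomputable def co (γ : Γ) : S.X →L[ℝ] ℝ := S.ev (S.cv γ)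

open Classical in
lemma co_e (γ γ' : Γ) : S.co γ (S.e γ') = if γ' = γ then (1 : ℝ) else 0 := by
  simp [co]

lemma abs_co_le (γ : Γ) (x : S.X) : |S.co γ x| ≤ ‖x‖ := S.abs_ev_le _ _

lemma dense_span : Dense (Submodule.span ℝ (Set.range S.e) : Set S.X) := by
  intro x
  rw [Metric.mem_closure_iff]
  intro ε hε
  have hx : (S.val x : S.Amb) ∈ closure (Submodule.span ℝ (Set.range S.uv) : Set S.Amb) := x.2
  rw [Metric.mem_closure_iff] at hx
  obtain ⟨b, hb, hxb⟩ := hx ε hε
  have key : ∀ y : S.Amb, y ∈ Submodule.span ℝ (Set.range S.uv) →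
      ∃ z : S.X, z ∈ Submodule.span ℝ (Set.range S.e) ∧ S.val z = y := by
    intro y hy
    induction hy using Submodule.span_induction with
    | mem y hy =>
      obtain ⟨γ, rfl⟩ := hy
      exact ⟨S.e γ, Submodule.subset_span ⟨γ, rfl⟩, rfl⟩
    | zero => exact ⟨0, Submodule.zero_mem _, map_zero _⟩
    | add a b _ _ ha hb =>
      obtain ⟨a', ha', rfl⟩ := ha
      obtain ⟨b', hb', rfl⟩ := hb
      exact ⟨a' + b', Submodule.add_mem _ ha' hb', map_add _ _ _⟩
    | smul c a _ ha =>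
      obtain ⟨a', ha', rfl⟩ := ha
      exact ⟨c • a', Submodule.smul_mem _ _ ha', map_smul _ _ _⟩
  obtain ⟨z, hz, rfl⟩ := key b hb
  exact ⟨z, hz, hxb⟩

/-- induction principle for the space -/
lemma X_induction {p : S.X → Prop} (x : S.X) (hc : IsClosed {x | p x}) (he : ∀ γ, p (S.e γ))
    (h0 : p 0) (hadd : ∀ x y, p x → p y → p (x + y)) (hsmul : ∀ (c : ℝ) x, p x → p (c • x)) :
    p x := by
  have h1 : (Submodule.span ℝ (Set.range S.e) : Set S.X) ⊆ {x | p x} := by
    intro y hy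
    induction hy using Submodule.span_induction with
    | mem y hy => obtain ⟨γ, rfl⟩ := hy; exact he γ
    | zero => exact h0
    | add a b _ _ ha hb => exact hadd _ _ ha hb
    | smul c a _ ha => exact hsmul c _ ha
  exact closure_minimal h1 hc (S.dense_span x)

open Classical in
/-- the indicator multiplier -/
noncomputable def ind (F : Finset Γ) : Γ → ℝ := fun γ => if γ ∈ F then 1 else 0

lemma abs_ind_le (F : Finset Γ) (γ : Γ) : |ind F γ| ≤ 1 := by
  unfold ind; split_ifs <;> simp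

/-- coordinate projection -/
noncomputable def P (F : Finset Γ) : S.X →L[ℝ] S.X := S.M (ind F) (abs_ind_le F)

lemma norm_P_le (F : Finset Γ) (x : S.X) : ‖S.P F x‖ ≤ ‖x‖ := S.norm_M_le _ _ x

lemma P_eq (F : Finset Γ) (x : S.X) : S.P F x = ∑ γ ∈ F, S.co γ x • S.e γ := by
  classical
  refine S.X_induction (p := fun x => S.P F x = ∑ γ ∈ F, S.co γ x • S.e γ) x ?_ ?_ ?_ ?_ ?_
  · apply isClosed_eq
    · exact (S.P F).continuous
    · exact continuous_finsetSum _ (fun γ _ => (S.co γ).continuous.smul continuous_const)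
  · intro γ
    simp only [P, M_e, co_e, ite_smul, one_smul, zero_smul]
    by_cases h : γ ∈ F
    · simp [ind, h]
    · simp [ind, h]
  · simp
  · intro x y hx hy
    rw [map_add, hx, hy]
    simp [add_smul, Finset.sum_add_distrib]
  · intro c x hx
    rw [map_smul, hx]
    simp [Finset.smul_sum, smul_smul]

lemma M_sum (m : Γ → ℝ) (hm : ∀ γ, |m γ| ≤ 1) (F : Finset Γ) (a : Γ → ℝ) :
    S.M m hm (∑ γ ∈ F, a γ • S.e γ) = ∑ γ ∈ F, (m γ * a γ) • S.e γ := by
  rw [map_sum]
  refine Finset.sum_congr rfl (fun γ _ => ?_)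
  rw [map_smul, M_e, smul_smul, mul_comm]

lemma exists_P (x : S.X) : ∀ ε : ℝ, 0 < ε →
    ∃ F0 : Finset Γ, ∀ F : Finset Γ, F0 ⊆ F → ‖x - S.P F x‖ ≤ ε := by
  classical
  refine S.X_induction (p := fun x => ∀ ε : ℝ, 0 < ε →
    ∃ F0 : Finset Γ, ∀ F : Finset Γ, F0 ⊆ F → ‖x - S.P F x‖ ≤ ε) x ?_ ?_ ?_ ?_ ?_
  · rw [← isSeqClosed_iff_isClosed]
    intro xs x hxs hx ε hε
    rw [Metric.tendsto_atTop] at hx
    obtain ⟨n, hn⟩ := hx (ε / 3) (by positivity)
    have h1 := hn n le_rfl
    rw [dist_eq_norm] at h1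
    obtain ⟨F0, hF0⟩ := hxs n (ε / 3) (by positivity)
    refine ⟨F0, fun F hF => ?_⟩
    have h2 := hF0 F hF
    have h3 : x - S.P F x = -(xs n - x) + (xs n - S.P F (xs n)) + S.P F (xs n - x) := by
      rw [map_sub]; abel
    rw [h3]
    have h4 := S.norm_P_le F (xs n - x)
    calc ‖-(xs n - x) + (xs n - S.P F (xs n)) + S.P F (xs n - x)‖
        ≤ ‖-(xs n - x)‖ + ‖xs n - S.P F (xs n)‖ + ‖S.P F (xs n - x)‖ := norm_add₃_le
      _ ≤ ε := by rw [norm_neg]; linarith
  · intro γ ε hε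
    refine ⟨{γ}, fun F hF => ?_⟩
    have : γ ∈ F := by simpa using hF
    simp [P, M_e, ind, this, hε.le]
  · intro ε hε; exact ⟨∅, fun F _ => by simp [hε.le]⟩
  · intro x y hx hy ε hε
    obtain ⟨F1, h1⟩ := hx (ε / 2) (by positivity)
    obtain ⟨F2, h2⟩ := hy (ε / 2) (by positivity)
    refine ⟨F1 ∪ F2, fun F hF => ?_⟩
    have h3 := h1 F (Finset.union_subset_left hF)
    have h4 := h2 F (Finset.union_subset_right hF)
    rw [map_add, show x + y - (S.P F x + S.P F y) = (x - S.P F x) + (y - S.P F y) by abel]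
    exact (norm_add_le _ _).trans (by linarith)
  · intro c x hx ε hε
    obtain ⟨F1, h1⟩ := hx (ε / (|c| + 1)) (by positivity)
    refine ⟨F1, fun F hF => ?_⟩
    have h3 := h1 F hF
    rw [map_smul, ← smul_sub, norm_smul, Real.norm_eq_abs]
    calc |c| * ‖x - S.P F x‖ ≤ |c| * (ε / (|c| + 1)) := by gcongr
      _ ≤ (|c| + 1) * (ε / (|c| + 1)) := by gcongr; linarith
      _ = ε := by field_simp

lemma norm_e (γ : Γ) : ‖S.e γ‖ = 1 := by
  apply le_antisymm
  · rw [S.norm_le_iff _ zero_le_one]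
    intro v
    simpa using S.abs_le v.1 v.2 γ
  · have := S.abs_co_le γ (S.e γ)
    simpa [co_e] using this

/-- The unit vectors form an unconditional basis. -/
lemma hasSum_coords (x : S.X) : HasSum (fun γ => S.co γ x • S.e γ) x := by
  rw [HasSum, SummationFilter.unconditional_filter, Metric.tendsto_nhds]
  intro ε hε
  obtain ⟨F0, hF0⟩ := S.exists_P x (ε / 2) (by positivity)
  filter_upwards [eventually_ge_atTop F0] with F hF
  have := hF0 F hF
  rw [P_eq] at this
  rw [dist_comm, dist_eq_norm]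
  linarith

lemma co_hasSum {a : Γ → ℝ} {x : S.X} (h : HasSum (fun γ => a γ • S.e γ) x) (γ : Γ) :
    S.co γ x = a γ := by
  classical
  have h1 := (S.co γ).hasSum h
  have h2 : HasSum (fun γ' => S.co γ (a γ' • S.e γ')) (a γ) := by
    have h3 := hasSum_ite_eq γ (a γ)
    convert h3 using 2 with γ'
    simp only [map_smul, co_e, smul_eq_mul]
    by_cases hh : γ' = γ
    · subst hh; simp
    · simp [hh]
  exact h1.unique h2

end SolidFam

end Pool.Agent.H69
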