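import Pool.Agent.H69.Solid

set_option autoImplicit false
open Filter Topology

namespace Pool.Agent.H69

namespace SolidFam

variable {Γ : Type} (S : SolidFam Γ)

/-- One step of the gliding hump. -/
lemma glide_step (z : ℕ → S.X) (hz : ∀ γ, Tendsto (fun n => S.co γ (z n)) atTop (𝓝 0))
    {ε : ℝ} (hε : 0 < ε) (G : Finset Γ) (N : ℕ) :
    ∃ p : Finset Γ × ℕ, N ≤ p.2 ∧ G ⊆ p.1 ∧
      ∀ F : Finset Γ, (∀ γ, γ ∈ F ↔ γ ∈ p.1 ∧ γ ∉ G) → ‖z p.2 - S.P F (z p.2)‖ ≤ ε := by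
  classical
  have h1 : Tendsto (fun n => ∑ γ ∈ G, |S.co γ (z n)|) atTop (𝓝 0) := by
    have := tendsto_finsetSum G (fun γ _ => (hz γ).abs)
    simpa using this
  obtain ⟨N1, hN1⟩ := (Metric.tendsto_atTop.mp h1) (ε / 2) (by positivity)
  set n := max N N1 with hn
  have h2 := hN1 n (le_max_right _ _)
  rw [Real.dist_eq, sub_zero] at h2
  have h3 : ∑ γ ∈ G, |S.co γ (z n)| < ε / 2 := lt_of_le_of_lt (le_abs_self _) h2
  obtain ⟨F0, hF0⟩ := S.exists_P (z n) (ε / 2) (by positivity)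
  refine ⟨(F0 ∪ G, n), le_max_left _ _, Finset.subset_union_right, ?_⟩
  intro F hF
  have hF1 : F = (F0 ∪ G) \ G := by
    ext γ; rw [hF γ]; simp
  have h4 := hF0 (F0 ∪ G) Finset.subset_union_left
  have h5 : S.P (F0 ∪ G) (z n) = S.P F (z n) + S.P G (z n) := by
    rw [P_eq, P_eq, P_eq, hF1]
    exact (Finset.sum_sdiff Finset.subset_union_right).symm
  have h6 : ‖S.P G (z n)‖ ≤ ε / 2 := by
    rw [P_eq]
    refine (norm_sum_le _ _).trans ?_
    refine le_trans (Finset.sum_le_sum (fun γ _ => ?_)) h3.le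
    rw [norm_smul, norm_e, mul_one, Real.norm_eq_abs]
  have h7 : z n - S.P F (z n) = (z n - S.P (F0 ∪ G) (z n)) + S.P G (z n) := by
    rw [h5]; abel
  show ‖z n - S.P F (z n)‖ ≤ ε
  rw [h7]
  exact (norm_add_le _ _).trans (by linarith)

/-- A weakly Cauchy sequence whose coordinates tend to zero is weakly null. -/
lemma glide (z : ℕ → S.X) (hz : ∀ γ, Tendsto (fun n => S.co γ (z n)) atTop (𝓝 0))
    (hC : ∀ f : S.X →L[ℝ] ℝ, CauchySeq (fun n => f (z n))) (f : S.X →L[ℝ] ℝ) :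
    Tendsto (fun n => f (z n)) atTop (𝓝 0) := by
  classical
  obtain ⟨c, hc⟩ := cauchySeq_tendsto_of_complete (hC f)
  by_cases hc0 : c = 0
  · rwa [hc0] at hc
  exfalso
  set ε : ℝ := |c| / (8 * (‖f‖ + 1)) with hε_def
  have hcpos : 0 < |c| := abs_pos.mpr hc0
  have hfpos : 0 < ‖f‖ + 1 := by positivity
  have hε : 0 < ε := by positivity
  have hfε : ‖f‖ * ε ≤ |c| / 8 := by
    rw [hε_def]
    calc ‖f‖ * (|c| / (8 * (‖f‖ + 1))) ≤ (‖f‖ + 1) * (|c| / (8 * (‖f‖ + 1))) := by gcongr; linarith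
      _ = |c| / 8 := by field_simp
  choose step hstep1 hstep2 hstep3 using fun (G : Finset Γ) (N : ℕ) => S.glide_step z hz hε G N
  let s : ℕ → Finset Γ × ℕ := fun k => Nat.rec (∅, 0) (fun _ p => step p.1 (p.2 + 1)) k
  have hs : ∀ k, s (k + 1) = step (s k).1 ((s k).2 + 1) := fun k => rfl
  set G : ℕ → Finset Γ := fun k => (s k).1 with hG
  set n : ℕ → ℕ := fun k => (s (k + 1)).2 with hn
  have hGs : ∀ k, G k ⊆ G (k + 1) := fun k => by
    simp only [hG]; rw [hs]; exact hstep2 _ _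
  have hGm : Monotone G := monotone_nat_of_le_succ hGs
  have hnm : StrictMono n := by
    apply strictMono_nat_of_lt_succ
    intro k
    simp only [hn]
    rw [hs (k + 1)]
    exact lt_of_lt_of_le (Nat.lt_succ_self _) (hstep1 _ _)
  set F : ℕ → Finset Γ := fun k => G (k + 1) \ G k with hF
  have hFz : ∀ k, ‖z (n k) - S.P (F k) (z (n k))‖ ≤ ε := by
    intro k
    have := hstep3 (s k).1 ((s k).2 + 1) (F k) (by
      intro γ
      simp only [hF, hG, Finset.mem_sdiff]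
      rw [hs])
    simpa only [hn, hs] using this
  -- the multiplier
  set m : Γ → ℝ := fun γ => (-1) ^ (sInf {k : ℕ | γ ∈ G (k + 1)}) with hm_def
  have hm : ∀ γ, |m γ| ≤ 1 := by
    intro γ
    simp [hm_def]
  have hmF : ∀ k, ∀ γ ∈ F k, m γ = (-1) ^ k := by
    intro k γ hγ
    simp only [hF, Finset.mem_sdiff] at hγ
    have h1 : sInf {k : ℕ | γ ∈ G (k + 1)} = k := by
      apply le_antisymm
      · exact Nat.sInf_le hγ.1
      · by_contra hlt
        push Not at hlt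
        have hne : {k : ℕ | γ ∈ G (k + 1)}.Nonempty := ⟨k, hγ.1⟩
        have h2 := Nat.sInf_mem hne
        exact hγ.2 (hGm (Nat.succ_le_of_lt hlt) h2)
    simp only [hm_def, h1]
  have hMP : ∀ k, S.M m hm (S.P (F k) (z (n k))) = ((-1 : ℝ) ^ k) • S.P (F k) (z (n k)) := by
    intro k
    rw [P_eq, M_sum, Finset.smul_sum]
    refine Finset.sum_congr rfl (fun γ hγ => ?_)
    rw [hmF k γ hγ, smul_smul]
  set g : S.X →L[ℝ] ℝ := f.comp (S.M m hm) with hg
  have hgk : ∀ k, |g (z (n k)) - (-1) ^ k * f (z (n k))| ≤ |c| / 4 := by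
    intro k
    have h1 : g (z (n k)) - (-1) ^ k * f (z (n k))
        = f (S.M m hm (z (n k) - S.P (F k) (z (n k))))
          - (-1) ^ k * f (z (n k) - S.P (F k) (z (n k))) := by
      rw [map_sub (S.M m hm), hMP]
      simp only [hg, ContinuousLinearMap.comp_apply, map_sub, map_smul, smul_eq_mul]
      ring
    rw [h1]
    have h2 : |f (S.M m hm (z (n k) - S.P (F k) (z (n k))))| ≤ |c| / 8 := by
      refine (f.le_opNorm _).trans (le_trans ?_ hfε)
      gcongr
      exact (S.norm_M_le m hm _).trans (hFz k)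
    have h3 : |(-1) ^ k * f (z (n k) - S.P (F k) (z (n k)))| ≤ |c| / 8 := by
      rw [abs_mul]
      have : |((-1 : ℝ)) ^ k| = 1 := by simp
      rw [this, one_mul]
      refine (f.le_opNorm _).trans (le_trans ?_ hfε)
      gcongr
      exact hFz k
    calc _ ≤ |f (S.M m hm (z (n k) - S.P (F k) (z (n k))))|
          + |(-1) ^ k * f (z (n k) - S.P (F k) (z (n k)))| := abs_sub _ _
      _ ≤ |c| / 4 := by linarith
  obtain ⟨d, hd⟩ := cauchySeq_tendsto_of_complete (hC g)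
  have hd' : Tendsto (fun k => g (z (n k))) atTop (𝓝 d) := hd.comp hnm.tendsto_atTop
  have hc' : Tendsto (fun k => f (z (n k))) atTop (𝓝 c) := hc.comp hnm.tendsto_atTop
  obtain ⟨K1, hK1⟩ := (Metric.tendsto_atTop.mp hd') (|c| / 8) (by positivity)
  obtain ⟨K2, hK2⟩ := (Metric.tendsto_atTop.mp hc') (|c| / 8) (by positivity)
  set K := 2 * max K1 K2 with hK
  have e1 := hK1 K (by omega)
  have e2 := hK1 (K + 1) (by omega)
  have e3 := hK2 K (by omega)
  have e4 := hK2 (K + 1) (by omega)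
  have e5 := hgk K
  have e6 := hgk (K + 1)
  have ev : ((-1 : ℝ)) ^ K = 1 := by
    rw [hK, pow_mul]; simp
  have od : ((-1 : ℝ)) ^ (K + 1) = -1 := by
    rw [pow_succ, ev]; simp
  rw [ev] at e5
  rw [od] at e6
  rw [Real.dist_eq] at e1 e2 e3 e4
  rw [abs_lt] at e1 e2 e3 e4
  rw [_root_.abs_le] at e5 e6
  rcases abs_cases c with ⟨h1, h2⟩ | ⟨h1, h2⟩ <;> linarith [e1.1, e1.2, e2.1, e2.2, e3.1, e3.2, e4.1, e4.2, e5.1, e5.2, e6.1, e6.2]

/-- weak sequential completeness from bounded completeness -/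
theorem wsc
    (hbc : ∀ y : Γ → ℝ, (∃ C : ℝ, ∀ F : Finset Γ, ‖∑ γ ∈ F, y γ • S.e γ‖ ≤ C) →
      Summable (fun γ => y γ • S.e γ))
    (x : ℕ → S.X) (hx : ∀ f : S.X →L[ℝ] ℝ, CauchySeq (fun n => f (x n))) :
    ∃ y : S.X, ∀ f : S.X →L[ℝ] ℝ, Tendsto (fun n => f (x n)) atTop (𝓝 (f y)) := by
  classical
  -- boundedness
  obtain ⟨C, hC⟩ : ∃ C : ℝ, ∀ n, ‖x n‖ ≤ C := by
    have := banach_steinhaus (g := fun n => NormedSpace.inclusionInDoubleDual ℝ S.X (x n)) (by
      intro f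
      obtain ⟨C, hC⟩ := (hx f).isBounded_range.exists_norm_le
      exact ⟨C, fun n => by
        rw [NormedSpace.dual_def]
        exact hC _ ⟨n, rfl⟩⟩)
    obtain ⟨C, hC⟩ := this
    refine ⟨C, fun n => ?_⟩
    have h := (NormedSpace.inclusionInDoubleDualLi (E := S.X) ℝ).norm_map (x n)
    rw [← h]
    exact hC n
  choose y hy using fun γ => cauchySeq_tendsto_of_complete (hx (S.co γ))
  have hb : ∀ F : Finset Γ, ‖∑ γ ∈ F, y γ • S.e γ‖ ≤ C := by
    intro F
    have h1 : Tendsto (fun n => S.P F (x n)) atTop (𝓝 (∑ γ ∈ F, y γ • S.e γ)) := by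
      have : (fun n => S.P F (x n)) = fun n => ∑ γ ∈ F, S.co γ (x n) • S.e γ := by
        funext n; rw [P_eq]
      rw [this]
      exact tendsto_finsetSum F (fun γ _ => (hy γ).smul_const _)
    refine le_of_tendsto h1.norm (Eventually.of_forall (fun n => ?_))
    exact (S.norm_P_le F _).trans (hC n)
  obtain ⟨Y, hY⟩ := hbc y ⟨C, hb⟩
  have hYco : ∀ γ, S.co γ Y = y γ := fun γ => S.co_hasSum hY γ
  refine ⟨Y, fun f => ?_⟩
  have := S.glide (fun n => x n - Y) (fun γ => by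
    have := (hy γ).sub_const (y γ)
    simpa [map_sub, hYco] using this) (fun f => by
    obtain ⟨l, hl⟩ := cauchySeq_tendsto_of_complete (hx f)
    have h1 := (hl.sub_const (f Y)).cauchySeq
    simpa [map_sub] using h1) f
  have h3 := this.add_const (f Y)
  simpa [map_sub] using h3

end SolidFam

end Pool.Agent.H69
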